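import Pool.Agent.TH60.FP.Defs

/-!
# Project FP, BND: bounded index of the powers of `g` (helper999)
-/

set_option autoImplicit false

universe u v

namespace Pool.Agent.TH60.FP

namespace Bnd

/-- finitely many elements move a point by a bounded amount -/
lemma few {X : Type u} [MetricSpace X] {G : Type v} [Group G] [MulAction G X] [ProperSpace X]
    [IsIsometricSMul G X] [ProperlyDiscontinuousSMul G X]
    (hcc : ∃ K : Set X, IsCompact K ∧ ∀ x : X, ∃ g : G, g • x ∈ K) (R : ℝ) :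
    ∃ M : ℕ, ∀ (x : X) (S : Finset G), (∀ a ∈ S, dist (a • x) x ≤ R) → S.card ≤ M := by
  classical
  obtain ⟨K, hK, hcov⟩ := hcc
  have hK' : IsCompact (Metric.cthickening R K) := hK.cthickening
  have hfin := ProperlyDiscontinuousSMul.finite_disjoint_inter_image (Γ := G) hK hK'
  refine ⟨hfin.toFinset.card, fun x S hS => ?_⟩
  obtain ⟨h, hh⟩ := hcov x
  have hinj : Function.Injective (fun a : G => h * a * h⁻¹) := fun a b hab => by simpa using hab
  rw [← Finset.card_image_of_injective S hinj]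
  refine Finset.card_le_card fun b hb => ?_
  obtain ⟨a, ha, rfl⟩ := Finset.mem_image.1 hb
  rw [Set.Finite.mem_toFinset]
  show ((fun x => (h * a * h⁻¹) • x) '' K ∩ Metric.cthickening R K).Nonempty
  have e1 : (h * a * h⁻¹) • (h • x) = h • (a • x) := by
    rw [smul_smul, smul_smul]
    congr 1
    group
  refine ⟨(h * a * h⁻¹) • (h • x), ⟨h • x, hh, rfl⟩, ?_⟩
  refine Metric.mem_cthickening_of_dist_le _ (h • x) R K hh ?_
  rw [e1, dist_smul]
  exact hS a ha

/-- the subgroup of the products of powers of two commuting elements -/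
def Ab {G : Type v} [Group G] {g k : G} (h : Commute g k) : Subgroup G where
  carrier := {a | ∃ i j : ℤ, a = g ^ i * k ^ j}
  mul_mem' := by
    rintro a b ⟨i, j, rfl⟩ ⟨i', j', rfl⟩
    refine ⟨i + i', j + j', ?_⟩
    have h1 : Commute (g ^ i') (k ^ j) := h.zpow_zpow i' j
    calc g ^ i * k ^ j * (g ^ i' * k ^ j') = g ^ i * (k ^ j * g ^ i') * k ^ j' := by group
      _ = g ^ i * (g ^ i' * k ^ j) * k ^ j' := by rw [h1.eq]
      _ = g ^ (i + i') * k ^ (j + j') := by
        rw [zpow_add, zpow_add]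
        group
  one_mem' := ⟨0, 0, by simp⟩
  inv_mem' := by
    rintro a ⟨i, j, rfl⟩
    refine ⟨-i, -j, ?_⟩
    have h1 : Commute (g ^ (-i)) (k ^ (-j)) := h.zpow_zpow (-i) (-j)
    rw [mul_inv_rev, ← zpow_neg, ← zpow_neg, h1.eq]

lemma commute_of_mem {G : Type v} [Group G] {g k : G} (h : Commute g k) {a : G}
    (ha : a ∈ Ab h) : Commute g a := by
  obtain ⟨i, j, rfl⟩ := ha
  exact ((Commute.refl g).zpow_right i).mul_right (h.zpow_right j)

lemma par_symm {X : Type u} [MetricSpace X] {c c' : ℝ → X} (h : Par c c') : Par c' c := by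
  obtain ⟨B, hB⟩ := h
  exact ⟨B, fun t => by rw [dist_comm]; exact hB t⟩

lemma par_trans {X : Type u} [MetricSpace X] {c c' c'' : ℝ → X} (h : Par c c')
    (h' : Par c' c'') : Par c c'' := by
  obtain ⟨B, hB⟩ := h
  obtain ⟨B', hB'⟩ := h'
  exact ⟨B + B', fun t => (dist_triangle _ _ _).trans (add_le_add (hB t) (hB' t))⟩

lemma isom_line {X : Type u} [MetricSpace X] {F : ℝ → ℝ → X} (hF : Fl F) (y : ℝ) :
    Isometry (fun t => F t y) := by
  refine Isometry.of_dist_eq fun s t => ?_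
  have h1 := hF s y t y
  rw [sub_self, zero_pow two_ne_zero, add_zero] at h1
  rw [Real.dist_eq, ← sq_eq_sq₀ dist_nonneg (abs_nonneg _), sq_abs]
  exact h1

lemma DD_smul {X : Type u} [MetricSpace X] {G : Type v} [Group G] [MulAction G X]
    [IsIsometricSMul G X] (a : G) (c c' : ℝ → X) :
    DD (fun t => a • c t) (fun t => a • c' t) = DD c c' := by
  unfold DD
  have h1 : Set.range (fun t => a • c' t) = (fun x : X => a • x) '' Set.range c' := by
    rw [← Set.range_comp]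
    rfl
  rw [h1]
  exact Metric.infDist_image (isometry_smul X a)

/-- almost homomorphisms -/
lemma qm {A : Type v} [Group A] (o : A → ℝ) (hd : ∀ a b, |o (a * b) - o a - o b| ≤ 2) (a : A)
    (θ C : ℝ) (h : ∀ n : ℕ, |o (a ^ n) - n * θ| ≤ C) : |o a - θ| ≤ 3 := by
  have h1 : ∀ n : ℕ, |o (a ^ n) - n * o a| ≤ 2 * n + 2 := by
    intro n
    induction n with
    | zero =>
      have := hd 1 1
      rw [mul_one, sub_self, zero_sub, abs_neg] at this
      simpa using this
    | succ n ih =>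
      have h2 := hd (a ^ n) a
      rw [← pow_succ] at h2
      have h3 : o (a ^ (n + 1)) - ((n + 1 : ℕ) : ℝ) * o a =
          (o (a ^ (n + 1)) - o (a ^ n) - o a) + (o (a ^ n) - n * o a) := by
        push_cast
        ring
      rw [h3]
      refine (abs_add_le _ _).trans ?_
      push_cast
      linarith
  by_contra hcon
  push Not at hcon
  obtain ⟨n, hn⟩ := exists_nat_gt (2 + C)
  have h2 := h n
  have h3 := h1 n
  have h4 : (n : ℝ) * |o a - θ| ≤ (2 * n + 2) + C := by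
    have h5 : (n : ℝ) * |o a - θ| = |(n : ℝ) * (o a - θ)| := by
      rw [abs_mul, Nat.abs_cast]
    have h6 : (n : ℝ) * (o a - θ) = -(o (a ^ n) - n * o a) + (o (a ^ n) - n * θ) := by ring
    rw [h5, h6]
    refine (abs_add_le _ _).trans ?_
    rw [abs_neg]
    linarith
  have h7 : (n : ℝ) * 3 ≤ n * |o a - θ| := mul_le_mul_of_nonneg_left hcon.le (Nat.cast_nonneg n)
  linarith

/-- reduction of the exponent -/
lemma reduce {G : Type v} [Group G] {g k : G} (N : ℕ) (hN : 0 < N)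
    (hkN : k ^ N ∈ Subgroup.zpowers g) (i j : ℤ) :
    ∃ (i' : ℤ) (r : ℕ), r < N ∧ g ^ i * k ^ j = g ^ i' * k ^ r := by
  obtain ⟨p, hp⟩ := Subgroup.mem_zpowers_iff.1 hkN
  have hN' : (0 : ℤ) < N := by exact_mod_cast hN
  have h0 : 0 ≤ j % N := Int.emod_nonneg _ hN'.ne'
  have h1 : j % N < N := Int.emod_lt_of_pos _ hN'
  refine ⟨i + p * (j / N), (j % N).toNat, by omega, ?_⟩
  have h2 : k ^ ((j % N).toNat) = k ^ (j % N) := by
    rw [← zpow_natCast, Int.toNat_of_nonneg h0]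
  have h3 : k ^ j = (k ^ N) ^ (j / N) * k ^ (j % N) := by
    rw [← zpow_natCast, ← zpow_mul, ← zpow_add, Int.mul_ediv_add_emod]
  rw [h2, h3, ← hp, ← zpow_mul, ← mul_assoc, ← zpow_add]

end Bnd

open Bnd in
theorem t_bnd (h1 : C_DD.{u}) (h2 : Y_CEN.{u, v}) (h3 : X_PARK.{u, v}) : X_BND.{u, v} := by
  classical
  intro X _ G _ _ F g τ B hs
  have := hs.proper
  have := hs.isom
  have := hs.disc
  have hcn := hs.cn
  have hτ := hs.pos
  obtain ⟨M, hM⟩ := few (G := G) hs.cc (τ + 6)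
  refine ⟨M, fun k hk N hN hkN hkj => ?_⟩
  obtain ⟨c1, c2, c3, c4, _⟩ := h1 X hcn
  set l0 : ℝ → X := fun t => F t 0 with hl0
  have hl0i : Isometry l0 := isom_line hs.flat 0
  have hB0 : 0 ≤ B := dist_nonneg.trans (hs.per 0 0 0)
  -- the lines parallel to the first one
  set P : (ℝ → X) → Prop := fun c => Isometry c ∧ Par l0 c with hP
  have hPl0 : P l0 := ⟨hl0i, 0, fun t => by simp⟩
  have hPar : ∀ x y : ℝ → X, P x → P y → Par x y := fun x y hx hy =>
    par_trans (par_symm hx.2) hy.2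
  have hPa : ∀ a ∈ Ab hk, ∀ c : ℝ → X, P c → P (fun t => a • c t) := by
    intro a ha c hc
    exact ⟨(isometry_smul X a).comp hc.1, h3 X G F g τ B hs a (commute_of_mem hk ha) c hc.2⟩
  -- the orbit of the first line is bounded
  have hDg : ∀ i : ℤ, DD l0 (fun t => g ^ i • l0 t) ≤ B := by
    intro i
    have e1 := hs.per i (-(i * τ)) 0
    rw [neg_add_cancel, dist_comm] at e1
    exact (Metric.infDist_le_dist_of_mem (Set.mem_range_self (-(i * τ)))).trans e1
  have hgm : ∀ i : ℤ, g ^ i ∈ Ab hk := fun i => ⟨i, 0, by simp⟩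
  have hkm : ∀ j : ℕ, k ^ j ∈ Ab hk := fun j => ⟨0, j, by simp⟩
  have horb : ∀ a ∈ Ab hk, DD l0 (fun t => a • l0 t) ≤
      B + ∑ r ∈ Finset.range N, DD l0 (fun t => k ^ r • l0 t) := by
    rintro a ⟨i, j, rfl⟩
    obtain ⟨i', r, hr, he⟩ := reduce N hN hkN i j
    rw [he]
    have e1 := c3 l0 (fun t => g ^ i' • l0 t) (fun t => (g ^ i' * k ^ r) • l0 t) hl0i
      (hPa _ (hgm i') _ hPl0).1 (hPa _ (mul_mem (hgm i') (hkm r)) _ hPl0).1
      (hPa _ (hgm i') _ hPl0).2
      (hPar _ _ (hPa _ (hgm i') _ hPl0) (hPa _ (mul_mem (hgm i') (hkm r)) _ hPl0))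
    have e2 : DD (fun t => g ^ i' • l0 t) (fun t => (g ^ i' * k ^ r) • l0 t) =
        DD l0 (fun t => k ^ r • l0 t) := by
      have : (fun t => (g ^ i' * k ^ r) • l0 t) = fun t => g ^ i' • (k ^ r • l0 t) := by
        funext t
        rw [mul_smul]
      rw [this]
      exact DD_smul (g ^ i') l0 (fun t => k ^ r • l0 t)
    have e3 : DD l0 (fun t => k ^ r • l0 t) ≤
        ∑ r ∈ Finset.range N, DD l0 (fun t => k ^ r • l0 t) :=
      Finset.single_le_sum (f := fun r : ℕ => DD l0 (fun t => k ^ r • l0 t))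
        (fun r _ => (c1 _ _ hl0i (hPa _ (hkm r) _ hPl0).1 (hPa _ (hkm r) _ hPl0).2).1)
        (Finset.mem_range.2 hr)
    have e4 := hDg i'
    linarith
  -- the almost invariant line
  obtain ⟨c, hc, hc1, _⟩ := h2 (ℝ → X) P DD (Ab hk)
    (fun a x hx => hPa a.1 a.2 x hx)
    (fun x y hx hy => (c1 x y hx.1 hy.1 (hPar x y hx hy)).1)
    (fun x y hx hy => c2 x y hx.1 hy.1 (hPar x y hx hy))
    (fun x y z hx hy hz => c3 x y z hx.1 hy.1 hz.1 (hPar x y hx hy) (hPar y z hy hz))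
    (fun a x y _ _ => DD_smul a.1 x y)
    (fun x y hx hy => by
      obtain ⟨m, hm1, hm2, hm3⟩ := c4 x y hx.1 hy.1 (hPar x y hx hy)
      exact ⟨m, ⟨hm1, par_trans hx.2 hm2⟩, fun z hz => hm3 z hz.1 (hPar x z hx hz)⟩)
    l0 (B + ∑ r ∈ Finset.range N, DD l0 (fun t => k ^ r • l0 t)) 1 hPl0 one_pos
    (fun a => horb a.1 a.2)
  have hca : ∀ a : Ab hk, P (fun t => a.1 • c t) := fun a => hPa a.1 a.2 c hc
  have hoff : ∀ a : Ab hk, ∃ o : ℝ, ∀ s t : ℝ, dist (a.1 • c s) (c t) ^ 2 =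
      DD (fun t => a.1 • c t) c ^ 2 + (t - s - o) ^ 2 := fun a =>
    (c1 _ _ (hca a).1 hc.1 (hPar _ _ (hca a) hc)).2
  choose o ho using hoff
  have hDD0 : ∀ a : Ab hk, 0 ≤ DD (fun t => a.1 • c t) c := fun a =>
    (c1 _ _ (hca a).1 hc.1 (hPar _ _ (hca a) hc)).1
  have hDD1 : ∀ a : Ab hk, DD (fun t => a.1 • c t) c ≤ 1 := by
    intro a
    rw [c2 _ _ (hca a).1 hc.1 (hPar _ _ (hca a) hc)]
    exact hc1 a
  have hnear : ∀ (a : Ab hk) (s : ℝ), dist (a.1 • c s) (c (s + o a)) ≤ 1 := by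
    intro a s
    have e1 := ho a s (s + o a)
    have e2 : dist (a.1 • c s) (c (s + o a)) ^ 2 ≤ 1 ^ 2 := by
      rw [e1, show s + o a - s - o a = 0 by ring]
      have := hDD0 a
      have := hDD1 a
      nlinarith
    exact le_of_sq_le_sq e2 zero_le_one
  have hlow : ∀ (a : Ab hk) (s t : ℝ), |t - s - o a| ≤ dist (a.1 • c s) (c t) := by
    intro a s t
    have e1 := ho a s t
    refine abs_le_of_sq_le_sq' ?_ dist_nonneg |> fun h => abs_le.2 h
    rw [e1]
    have := sq_nonneg (DD (fun t => a.1 • c t) c)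
    linarith
  have hup : ∀ a : Ab hk, dist (a.1 • c 0) (c 0) ≤ 1 + |o a| := by
    intro a
    have e1 := hnear a 0
    have e2 : dist (c (0 + o a)) (c 0) = |o a| := by
      rw [hc.1.dist_eq, Real.dist_eq]
      congr 1
      ring
    exact (dist_triangle _ (c (0 + o a)) _).trans (by rw [e2]; linarith)
  have hd : ∀ a b : Ab hk, |o (a * b) - o a - o b| ≤ 2 := by
    intro a b
    have e1 := hlow (a * b) 0 (0 + o b + o a)
    have e2 : dist ((a * b : Ab hk).1 • c 0) (c (0 + o b + o a)) ≤ 2 := by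
      have e3 : (a * b : Ab hk).1 • c 0 = a.1 • (b.1 • c 0) := by
        rw [smul_smul]
        rfl
      rw [e3]
      refine (dist_triangle _ (a.1 • c (0 + o b)) _).trans ?_
      have e4 := hnear a (0 + o b)
      have e5 := hnear b 0
      rw [dist_smul]
      linarith
    have e6 : o (a * b) - o a - o b = -(0 + o b + o a - 0 - o (a * b)) := by ring
    rw [e6, abs_neg]
    exact e1.trans e2
  -- the powers of `g`
  obtain ⟨B', hB'⟩ := hc.2
  have hgo : ∀ i : ℤ, |o ⟨g ^ i, hgm i⟩ - i * τ| ≤ 2 * B' + B := by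
    intro i
    have e1 := hlow ⟨g ^ i, hgm i⟩ 0 (0 + i * τ)
    have e2 : dist (g ^ i • c 0) (c (0 + i * τ)) ≤ 2 * B' + B := by
      have e3 : dist (g ^ i • c 0) (g ^ i • l0 0) ≤ B' := by
        rw [dist_smul, dist_comm]
        exact hB' 0
      have e4 : dist (g ^ i • l0 0) (l0 (0 + i * τ)) ≤ B := hs.per i 0 0
      have e5 := hB' (0 + i * τ)
      have e6 := dist_triangle4 (g ^ i • c 0) (g ^ i • l0 0) (l0 (0 + i * τ)) (c (0 + i * τ))
      linarith
    have e7 : o ⟨g ^ i, hgm i⟩ - i * τ = -(0 + i * τ - 0 - o ⟨g ^ i, hgm i⟩) := by ring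
    rw [e7, abs_neg]
    exact e1.trans e2
  have hgo3 : ∀ i : ℤ, |o ⟨g ^ i, hgm i⟩ - i * τ| ≤ 3 := by
    intro i
    refine qm o hd _ _ (2 * B' + B) fun n => ?_
    have e1 : (⟨g ^ i, hgm i⟩ : Ab hk) ^ n = ⟨g ^ (i * n), hgm (i * n)⟩ := by
      apply Subtype.ext
      show (g ^ i) ^ n = g ^ (i * n)
      rw [zpow_mul, zpow_natCast]
    rw [e1]
    have e2 := hgo (i * n)
    push_cast at e2
    rw [show (n : ℝ) * (i * τ) = i * n * τ by ring]
    exact e2
  -- the elements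
  have hel : ∀ j : ℕ, ∃ i : ℤ, dist ((g ^ i * k ^ j) • c 0) (c 0) ≤ τ + 6 := by
    intro j
    set b : Ab hk := ⟨k ^ j, hkm j⟩ with hb
    refine ⟨-round (o b / τ), ?_⟩
    set i : ℤ := -round (o b / τ) with hi
    have e1 := hup (⟨g ^ i, hgm i⟩ * b)
    have e2 := hd ⟨g ^ i, hgm i⟩ b
    have e3 := hgo3 i
    have e4 : |i * τ + o b| ≤ τ := by
      have e5 := abs_sub_round (o b / τ)
      have e6 : (i : ℝ) * τ + o b = (o b / τ - round (o b / τ)) * τ := by
        rw [hi]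
        push_cast
        field_simp
        ring
      rw [e6, abs_mul, abs_of_pos hτ]
      nlinarith
    have e7 : |o (⟨g ^ i, hgm i⟩ * b)| ≤ τ + 5 := by
      have e8 : o (⟨g ^ i, hgm i⟩ * b) = (o (⟨g ^ i, hgm i⟩ * b) - o ⟨g ^ i, hgm i⟩ - o b) +
          ((o ⟨g ^ i, hgm i⟩ - i * τ) + (i * τ + o b)) := by ring
      rw [e8]
      refine (abs_add_le _ _).trans ?_
      have := abs_add_le (o ⟨g ^ i, hgm i⟩ - i * τ) (i * τ + o b)
      linarith
    have e9 : (⟨g ^ i, hgm i⟩ * b : Ab hk).1 = g ^ i * k ^ j := rfl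
    rw [e9] at e1
    linarith
  choose ix hix using hel
  have hinj : Set.InjOn (fun j : ℕ => g ^ ix j * k ^ j) (Finset.range N : Set ℕ) := by
    have key : ∀ j j' : ℕ, j < j' → j' < N → g ^ ix j * k ^ j ≠ g ^ ix j' * k ^ j' := by
      intro j j' hjj hj' he
      refine hkj (j' - j) (by omega) (by omega) ?_
      refine Subgroup.mem_zpowers_iff.2 ⟨ix j - ix j', ?_⟩
      have e1 : k ^ j' = k ^ (j' - j) * k ^ j := by
        rw [← pow_add]
        congr 1
        omega
      rw [e1, ← mul_assoc] at he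
      have e2 := mul_right_cancel he
      rw [sub_eq_neg_add, zpow_add, zpow_neg, e2, inv_mul_cancel_left]
    intro j hj j' hj' he
    have hjN := Finset.mem_range.1 hj
    have hjN' := Finset.mem_range.1 hj'
    rcases lt_trichotomy j j' with h | h | h
    · exact absurd he (key j j' h hjN')
    · exact h
    · exact absurd he.symm (key j' j h hjN)
  have hcard := Finset.card_image_of_injOn hinj
  rw [Finset.card_range] at hcard
  rw [← hcard]
  refine hM (c 0) _ fun a ha => ?_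
  obtain ⟨j, _, rfl⟩ := Finset.mem_image.1 ha
  exact hix j

end Pool.Agent.TH60.FP
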