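import Pool.Agent.TH60.FP.Defs

/-! Project FP, part CEN: almost fixed points of a group with a bounded orbit. -/

set_option autoImplicit false

universe u v

namespace Pool.Agent.TH60.FP

/-- CEN -/
theorem t_cen : Y_CEN.{u, v} := by
  intro Y P D A _ _ hP h0 hs ht hi hcn x0 R η hx0 hη hR
  have hR0 : 0 ≤ R := (h0 _ _ hx0 (hP 1 x0 hx0)).trans (hR 1)
  set psi : Y → ℝ := fun c => ⨆ a : A, D (a • x0) c ^ 2 with hpsi
  have hbd : ∀ c, P c → BddAbove (Set.range fun a : A => D (a • x0) c ^ 2) := by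
    intro c hc
    refine ⟨(R + D x0 c) ^ 2, ?_⟩
    rintro _ ⟨a, rfl⟩
    have h1 := ht (a • x0) x0 c (hP a _ hx0) hx0 hc
    have h2 := hs (a • x0) x0 (hP a _ hx0) hx0
    have h3 := hR a
    have h4 := h0 (a • x0) c (hP a _ hx0) hc
    exact pow_le_pow_left₀ h4 (by linarith) 2
  have hle : ∀ c, P c → ∀ a : A, D (a • x0) c ^ 2 ≤ psi c :=
    fun c hc a => le_ciSup (hbd c hc) a
  have hup : ∀ c M, (∀ a : A, D (a • x0) c ^ 2 ≤ M) → psi c ≤ M := fun c M h => ciSup_le h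
  have hnn : ∀ c, P c → 0 ≤ psi c := fun c hc => (sq_nonneg _).trans (hle c hc 1)
  set S : Set ℝ := psi '' {c | P c} with hS
  have hSne : S.Nonempty := ⟨psi x0, x0, hx0, rfl⟩
  have hSbd : BddBelow S := by
    refine ⟨0, ?_⟩
    rintro _ ⟨c, hc, rfl⟩
    exact hnn c hc
  have hlt0 : sInf S < sInf S + η ^ 2 / 4 := by
    have : 0 < η ^ 2 := by positivity
    linarith
  obtain ⟨_, ⟨c, hc, rfl⟩, hlt⟩ := exists_lt_of_csInf_lt hSne hlt0
  have hc' : P c := hc
  have hin : ∀ m, P m → psi c ≤ psi m + η ^ 2 / 4 := by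
    intro m hm
    have : sInf S ≤ psi m := csInf_le hSbd ⟨m, hm, rfl⟩
    linarith
  refine ⟨c, hc', fun a => ?_, ?_⟩
  · obtain ⟨m, hm, hmz⟩ := hcn c (a • c) hc' (hP a c hc')
    have h1 : psi m ≤ psi c - D c (a • c) ^ 2 / 4 := by
      refine hup m _ fun b => ?_
      have h2 := hmz (b • x0) (hP b _ hx0)
      have h3 := hle c hc' b
      have h4 : D (b • x0) (a • c) = D ((a⁻¹ * b) • x0) c := by
        have := hi a ((a⁻¹ * b) • x0) c (hP _ _ hx0) hc'
        rw [← this, smul_smul, mul_inv_cancel_left]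
      have h5 := hle c hc' (a⁻¹ * b)
      rw [h4] at h2
      linarith
    have h6 := hin m hm
    have h7 : D c (a • c) ^ 2 ≤ η ^ 2 := by linarith
    exact (abs_le_of_sq_le_sq' h7 hη.le).2
  · have h1 : psi x0 ≤ R ^ 2 := by
      refine hup x0 _ fun a => ?_
      have h2 := hs (a • x0) x0 (hP a _ hx0) hx0
      have h3 := hR a
      have h4 := h0 (a • x0) x0 (hP a _ hx0) hx0
      exact pow_le_pow_left₀ h4 (by linarith) 2
    have h2 := hin x0 hx0
    have h3 := hle c hc' 1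
    rw [one_smul] at h3
    have h4 : D c x0 ^ 2 ≤ (R + η) ^ 2 := by
      rw [hs c x0 hc' hx0]
      nlinarith [mul_nonneg hR0 hη.le]
    exact (abs_le_of_sq_le_sq' h4 (by linarith)).2

end Pool.Agent.TH60.FP
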