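import Pool.Agent.TH60.FP.Defs

/-!
# The distance of parallel lines is a CAT(0) metric
-/

set_option autoImplicit false

universe u v

namespace Pool.Agent.TH60.FP

namespace Dist

variable {X : Type u} [MetricSpace X]

/-- reparametrised line -/
def Sh (c : ℝ → X) (o : ℝ) : ℝ → X := fun t => c (t + o)

theorem iso_sh {c : ℝ → X} (hc : Isometry c) (o : ℝ) : Isometry (Sh c o) := by
  intro s t
  unfold Sh
  rw [hc (s + o) (t + o), edist_add_right]

theorem dist_iso {c : ℝ → X} (hc : Isometry c) (s t : ℝ) : dist (c s) (c t) = |s - t| := by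
  rw [hc.dist_eq, Real.dist_eq]

theorem par_symm {a b : ℝ → X} (h : Par a b) : Par b a := by
  obtain ⟨B, hB⟩ := h
  exact ⟨B, fun t => by rw [dist_comm]; exact hB t⟩

theorem par_trans {a b c : ℝ → X} (h : Par a b) (h' : Par b c) : Par a c := by
  obtain ⟨B, hB⟩ := h
  obtain ⟨C, hC⟩ := h'
  exact ⟨B + C, fun t => (dist_triangle _ (b t) _).trans (add_le_add (hB t) (hC t))⟩

theorem par_sh {c : ℝ → X} (hc : Isometry c) (o : ℝ) : Par c (Sh c o) := by
  refine ⟨|o|, fun t => ?_⟩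
  unfold Sh
  rw [dist_iso hc]
  have h : t - (t + o) = -o := by ring
  rw [h, abs_neg]

theorem par_of_sy {a b : ℝ → X} (h : Sy a b) : Par a b := by
  refine ⟨dist (a 0) (b 0), fun t => ?_⟩
  have h1 := h t t
  rw [sub_self, zero_pow two_ne_zero, add_zero] at h1
  exact le_of_eq ((sq_eq_sq₀ dist_nonneg dist_nonneg).1 h1)

theorem infDist_eq {p : X} {c : ℝ → X} {d o : ℝ} (hd : 0 ≤ d)
    (h : ∀ t, dist p (c t) ^ 2 = d ^ 2 + (t - o) ^ 2) : Metric.infDist p (Set.range c) = d := by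
  apply le_antisymm
  · have h1 := h o
    rw [sub_self, zero_pow two_ne_zero, add_zero] at h1
    rw [← (sq_eq_sq₀ dist_nonneg hd).1 h1]
    exact Metric.infDist_le_dist_of_mem (Set.mem_range_self o)
  · rw [Metric.le_infDist (Set.range_nonempty c)]
    rintro _ ⟨t, rfl⟩
    have h1 := h t
    have h2 : d ^ 2 ≤ dist p (c t) ^ 2 := by
      rw [h1]
      nlinarith [sq_nonneg (t - o)]
    exact (sq_le_sq₀ hd dist_nonneg).1 h2

theorem dd_of {c c' : ℝ → X} {d o s : ℝ} (hd : 0 ≤ d)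
    (h : ∀ s t, dist (c s) (c' t) ^ 2 = d ^ 2 + (t - s - o) ^ 2) : DD (Sh c s) c' = d := by
  unfold DD Sh
  apply infDist_eq (o := 0 + s + o) hd
  intro t
  rw [h]
  ring

theorem sh_zero (c : ℝ → X) : Sh c 0 = c := by
  funext t
  unfold Sh
  rw [add_zero]

theorem range_sh (c : ℝ → X) (o : ℝ) : Set.range (Sh c o) = Set.range c := by
  ext x
  constructor
  · rintro ⟨t, rfl⟩
    exact ⟨t + o, rfl⟩
  · rintro ⟨t, rfl⟩
    refine ⟨t - o, ?_⟩
    unfold Sh
    rw [sub_add_cancel]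

theorem dd_sh (c c' : ℝ → X) (o : ℝ) : DD c (Sh c' o) = DD c c' := by
  unfold DD
  rw [range_sh]

theorem dd_sy {c c' : ℝ → X} (h : Sy c c') : DD c c' = dist (c 0) (c' 0) := by
  unfold DD
  refine infDist_eq (o := 0) dist_nonneg ?_
  intro t
  exact h 0 t

theorem dd_one (h1 : C_STRIP.{u}) (hX : CN X) {c c' : ℝ → X} (hc : Isometry c) (hc' : Isometry c')
    (hp : Par c c') : 0 ≤ DD c c' ∧
    ∃ o : ℝ, ∀ s t : ℝ, dist (c s) (c' t) ^ 2 = DD c c' ^ 2 + (t - s - o) ^ 2 := by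
  obtain ⟨o, ho⟩ := h1 X hX c c' hc hc' hp
  have hd : DD c c' = dist (c 0) (c' (0 + o)) := by
    rw [← dd_sh c c' o]
    exact dd_sy ho
  refine ⟨by rw [hd]; exact dist_nonneg, o, fun s t => ?_⟩
  have h2 := ho s (t - o)
  simp only [sub_add_cancel] at h2
  rw [h2, hd]
  ring

theorem dd_symm (h1 : C_STRIP.{u}) (hX : CN X) {c c' : ℝ → X} (hc : Isometry c)
    (hc' : Isometry c') (hp : Par c c') : DD c c' = DD c' c := by
  obtain ⟨h0, o, ho⟩ := dd_one h1 hX hc hc' hp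
  symm
  unfold DD
  refine infDist_eq (o := -o) h0 ?_
  intro t
  rw [dist_comm]
  have h2 := ho t 0
  unfold DD at h2
  rw [h2]
  ring

theorem dd_sh_left (h1 : C_STRIP.{u}) (hX : CN X) {c c' : ℝ → X} (hc : Isometry c)
    (hc' : Isometry c') (hp : Par c c') (s : ℝ) : DD (Sh c s) c' = DD c c' := by
  obtain ⟨h0, o, ho⟩ := dd_one h1 hX hc hc' hp
  exact dd_of h0 ho

theorem iso_fl {F : ℝ → ℝ → X} (hF : Fl F) (y : ℝ) : Isometry (fun t => F t y) := by
  apply Isometry.of_dist_eq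
  intro s t
  have h := hF s y t y
  rw [sub_self, zero_pow two_ne_zero, add_zero] at h
  rw [Real.dist_eq]
  rw [← sq_abs (s - t)] at h
  exact (sq_eq_sq₀ dist_nonneg (abs_nonneg _)).1 h

theorem sy_fl {F : ℝ → ℝ → X} (hF : Fl F) (y y' : ℝ) :
    Sy (fun t => F t y) (fun t => F t y') := by
  intro s t
  simp only
  rw [hF, hF]
  ring

end Dist

open Dist

theorem t_dd (h1 : C_STRIP.{u}) (h2 : C_TRANS.{u}) (h3 : C_MID.{u}) : C_DD.{u} := by
  intro X _ hX
  refine ⟨fun c c' hc hc' hp => dd_one h1 hX hc hc' hp,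
    fun c c' hc hc' hp => dd_symm h1 hX hc hc' hp, ?_, ?_, ?_⟩
  · intro a b c ha hb hc hab hbc
    obtain ⟨o1, ho1⟩ := h1 X hX a b ha hb hab
    obtain ⟨o2, ho2⟩ := h1 X hX a c ha hc (par_trans hab hbc)
    have e1 : Sy (Sh b o1) (Sh c o2) :=
      h2 X hX a (Sh b o1) (Sh c o2) ha (iso_sh hb o1) (iso_sh hc o2) ho1 ho2
    have d1 : DD a c = dist (a 0) (Sh c o2 0) := by
      rw [← dd_sh a c o2]
      exact dd_sy ho2
    have d2 : DD a b = dist (a 0) (Sh b o1 0) := by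
      rw [← dd_sh a b o1]
      exact dd_sy ho1
    have d3 : DD b c = dist (Sh b o1 0) (Sh c o2 0) := by
      rw [← dd_sh_left h1 hX hb hc hbc o1, ← dd_sh (Sh b o1) c o2]
      exact dd_sy e1
    rw [d1, d2, d3]
    exact dist_triangle _ _ _
  · intro a b ha hb hab
    obtain ⟨o, ho⟩ := h1 X hX a b ha hb hab
    obtain ⟨m, hm, ham, hmx⟩ := h3 X hX a (Sh b o) ha (iso_sh hb o) ho
    refine ⟨m, hm, par_of_sy ham, fun x hx hax => ?_⟩
    obtain ⟨o', ho'⟩ := h1 X hX a x ha hx hax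
    have e1 : Sy m (Sh x o') := h2 X hX a m (Sh x o') ha hm (iso_sh hx o') ham ho'
    have e2 : Sy (Sh b o) (Sh x o') :=
      h2 X hX a (Sh b o) (Sh x o') ha (iso_sh hb o) (iso_sh hx o') ho ho'
    have hmx' : Par m x := par_trans (par_symm (par_of_sy ham)) hax
    have hbx : Par b x := par_trans (par_symm hab) hax
    have d1 : DD x m = dist (Sh x o' 0) (m 0) := by
      rw [← dd_symm h1 hX hm hx hmx', ← dd_sh m x o', dd_sy e1, dist_comm]
    have d2 : DD x a = dist (Sh x o' 0) (a 0) := by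
      rw [← dd_symm h1 hX ha hx hax, ← dd_sh a x o', dist_comm]
      exact dd_sy ho'
    have d3 : DD x b = dist (Sh x o' 0) (Sh b o 0) := by
      rw [← dd_symm h1 hX hb hx hbx, ← dd_sh_left h1 hX hb hx hbx o, ← dd_sh (Sh b o) x o',
        dd_sy e2, dist_comm]
    have d4 : DD a b = dist (a 0) (Sh b o 0) := by
      rw [← dd_sh a b o]
      exact dd_sy ho
    rw [d1, d2, d3, d4]
    exact hmx _
  · intro F hF x hx y hp
    have iF := fun z => iso_fl hF z
    obtain ⟨o, ho⟩ := h1 X hX (fun t => F t y) x (iF y) hx hp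
    have key : ∀ z, DD x (fun t => F t z) = dist (Sh x o 0) (F 0 z) := by
      intro z
      have e1 : Sy (fun t => F t z) (Sh x o) :=
        h2 X hX (fun t => F t y) (fun t => F t z) (Sh x o) (iF y) (iF z) (iso_sh hx o)
          (sy_fl hF y z) ho
      have e2 : Par (fun t => F t z) x := par_trans (par_of_sy (sy_fl hF z y)) hp
      rw [← dd_symm h1 hX (iF z) hx e2, ← dd_sh (fun t => F t z) x o, dd_sy e1, dist_comm]
    rw [key, key, key]
    obtain ⟨m, hm⟩ := hX (F 0 (y - 1)) (F 0 (y + 1))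
    have e1 : dist (F 0 (y - 1)) (F 0 (y + 1)) ^ 2 = 4 := by
      rw [hF]
      ring
    have e2 : dist (F 0 y) (F 0 (y - 1)) ^ 2 = 1 := by
      rw [hF]
      ring
    have e3 : dist (F 0 y) (F 0 (y + 1)) ^ 2 = 1 := by
      rw [hF]
      ring
    have h4 := hm (F 0 y)
    rw [e1, e2, e3] at h4
    have h5 : dist (F 0 y) m = 0 := by
      have h6 : dist (F 0 y) m ^ 2 = 0 := le_antisymm (by linarith) (sq_nonneg _)
      exact pow_eq_zero_iff two_ne_zero |>.1 h6
    have h7 : F 0 y = m := dist_eq_zero.1 h5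
    have h8 := hm (Sh x o 0)
    rw [e1, ← h7] at h8
    linarith

end Pool.Agent.TH60.FP
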