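import Pool.Agent.TH60.FP.Defs

/-!
# EXT: a local period extends if there are two independent periods
-/

set_option autoImplicit false

universe u v

namespace Pool.Agent.TH60.FP

namespace Ext

/-- one coordinate: a point of the staircase path -/
theorem coord {K N D α β t i j W X V1 V2 r q : ℤ} (hK : K = N * D) (hKp : 0 < K) (hD : 0 < D)
    (hW : D * W = α * V1 + β * V2) (ht0 : 0 ≤ t) (htN : t ≤ N)
    (i1 : -K ≤ t * α - K * i) (i2 : t * α - K * i ≤ K)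
    (j1 : -K ≤ t * β - K * j) (j2 : t * β - K * j ≤ K)
    (hV1 : -q ≤ V1) (hV1' : V1 ≤ q) (hV2 : -q ≤ V2) (hV2' : V2 ≤ q)
    (hX : -q ≤ X) (hX' : X ≤ q) (hqr : q ≤ r) (hWX : -r ≤ W + X) (hWX' : W + X ≤ r) :
    -(r + 2 * q) ≤ W - i * V1 - j * V2 + X ∧ W - i * V1 - j * V2 + X ≤ r + 2 * q := by
  have hq : 0 ≤ q := by omega
  have e : K * (W - i * V1 - j * V2 + X) = (N - t) * D * (W + X) + t * D * X +
      (t * α - K * i) * V1 + (t * β - K * j) * V2 := by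
    rw [hK]
    linear_combination t * hW
  have a1 : |(t * α - K * i) * V1| ≤ K * q := by
    rw [abs_mul]
    exact mul_le_mul (abs_le.2 ⟨i1, i2⟩) (abs_le.2 ⟨hV1, hV1'⟩) (abs_nonneg _) hKp.le
  have a2 : |(t * β - K * j) * V2| ≤ K * q := by
    rw [abs_mul]
    exact mul_le_mul (abs_le.2 ⟨j1, j2⟩) (abs_le.2 ⟨hV2, hV2'⟩) (abs_nonneg _) hKp.le
  have hND : 0 ≤ (N - t) * D := mul_nonneg (by omega) hD.le
  have htD : 0 ≤ t * D := mul_nonneg ht0 hD.le
  have a3 : |(N - t) * D * (W + X)| ≤ (N - t) * D * r := by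
    rw [abs_mul, abs_of_nonneg hND]
    exact mul_le_mul_of_nonneg_left (abs_le.2 ⟨hWX, hWX'⟩) hND
  have a4 : |t * D * X| ≤ t * D * r := by
    rw [abs_mul, abs_of_nonneg htD]
    exact mul_le_mul_of_nonneg_left (abs_le.2 ⟨by omega, by omega⟩) htD
  have a5 : (N - t) * D * r + t * D * r = K * r := by rw [hK]; ring
  have b1 := abs_le.1 a1
  have b2 := abs_le.1 a2
  have b3 := abs_le.1 a3
  have b4 := abs_le.1 a4
  constructor
  · have : K * (-(r + 2 * q)) ≤ K * (W - i * V1 - j * V2 + X) := by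
      rw [e]; linarith [b1.1, b2.1, b3.1, b4.1]
    exact le_of_mul_le_mul_left this hKp
  · have : K * (W - i * V1 - j * V2 + X) ≤ K * (r + 2 * q) := by
      rw [e]; linarith [b1.2, b2.2, b3.2, b4.2]
    exact le_of_mul_le_mul_left this hKp

/-- one coordinate: the last point -/
theorem coordN {K N D α β i j W X V1 V2 q : ℤ} (hK : K = N * D) (hKp : 0 < K)
    (hW : D * W = α * V1 + β * V2)
    (i1 : -K ≤ N * α - K * i) (i2 : N * α - K * i ≤ K)
    (j1 : -K ≤ N * β - K * j) (j2 : N * β - K * j ≤ K)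
    (hV1 : -q ≤ V1) (hV1' : V1 ≤ q) (hV2 : -q ≤ V2) (hV2' : V2 ≤ q)
    (hX : -q ≤ X) (hX' : X ≤ q) :
    -(3 * q) ≤ W - i * V1 - j * V2 + X ∧ W - i * V1 - j * V2 + X ≤ 3 * q := by
  have hq : 0 ≤ q := by omega
  have e : K * (W - i * V1 - j * V2 + X) = K * X +
      (N * α - K * i) * V1 + (N * β - K * j) * V2 := by
    rw [hK]
    linear_combination N * hW
  have a1 : |(N * α - K * i) * V1| ≤ K * q := by
    rw [abs_mul]
    exact mul_le_mul (abs_le.2 ⟨i1, i2⟩) (abs_le.2 ⟨hV1, hV1'⟩) (abs_nonneg _) hKp.le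
  have a2 : |(N * β - K * j) * V2| ≤ K * q := by
    rw [abs_mul]
    exact mul_le_mul (abs_le.2 ⟨j1, j2⟩) (abs_le.2 ⟨hV2, hV2'⟩) (abs_nonneg _) hKp.le
  have a4 : |K * X| ≤ K * q := by
    rw [abs_mul, abs_of_nonneg hKp.le]
    exact mul_le_mul_of_nonneg_left (abs_le.2 ⟨hX, hX'⟩) hKp.le
  have b1 := abs_le.1 a1
  have b2 := abs_le.1 a2
  have b4 := abs_le.1 a4
  constructor
  · have : K * (-(3 * q)) ≤ K * (W - i * V1 - j * V2 + X) := by
      rw [e]; linarith [b1.1, b2.1, b4.1]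
    exact le_of_mul_le_mul_left this hKp
  · have : K * (W - i * V1 - j * V2 + X) ≤ K * (3 * q) := by
      rw [e]; linarith [b1.2, b2.2, b4.2]
    exact le_of_mul_le_mul_left this hKp

theorem main {S : Type u} (c : ℤ × ℤ → S) (z : ℤ × ℤ) (r q : ℤ) (v1 v2 x w : ℤ × ℤ)
    (hqr : q ≤ r) (h1 : Bx 0 q v1) (h2 : Bx 0 q v2) (hx : Bx 0 q x)
    (p1 : Pe c z (r + 2 * q) v1) (p2 : Pe c z (r + 2 * q) v2) (px : Pe c z (3 * q) x)
    (hw : Bx z r w) (hwx : Bx z r (w + x)) (D α β : ℤ) (hD : 0 < D) (hα : 0 ≤ α) (hβ : 0 ≤ β)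
    (e1 : D * (w.1 - z.1) = α * v1.1 + β * v2.1) (e2 : D * (w.2 - z.2) = α * v1.2 + β * v2.2) :
    c w = c (w + x) := by
  obtain ⟨h1a, h1b, h1c, h1d⟩ := h1
  obtain ⟨h2a, h2b, h2c, h2d⟩ := h2
  obtain ⟨hxa, hxb, hxc, hxd⟩ := hx
  obtain ⟨hwa, hwb, hwc, hwd⟩ := hw
  obtain ⟨hya, hyb, hyc, hyd⟩ := hwx
  simp only [Prod.fst_zero, Prod.snd_zero, sub_zero, Prod.fst_add, Prod.snd_add] at *
  set N : ℕ := (α + β + 1).toNat with hN
  have hNZ : (N : ℤ) = α + β + 1 := by rw [hN]; omega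
  set K : ℤ := N * D with hK
  have hKp : 0 < K := by rw [hK]; apply mul_pos <;> omega
  have hKα : α ≤ K := by
    have : (N : ℤ) * 1 ≤ N * D := mul_le_mul_of_nonneg_left (by omega) (by omega)
    omega
  have hKβ : β ≤ K := by
    have : (N : ℤ) * 1 ≤ N * D := mul_le_mul_of_nonneg_left (by omega) (by omega)
    omega
  -- the points
  have hB : ∀ (t i j : ℤ), 0 ≤ t → t ≤ N → -K ≤ t * α - K * i → t * α - K * i ≤ K →
      -K ≤ t * β - K * j → t * β - K * j ≤ K →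
      Bx z (r + 2 * q) (w.1 - i * v1.1 - j * v2.1, w.2 - i * v1.2 - j * v2.2) ∧
      Bx z (r + 2 * q) (w.1 - i * v1.1 - j * v2.1 + x.1, w.2 - i * v1.2 - j * v2.2 + x.2) := by
    intro t i j ht htN i1 i2 j1 j2
    have a1 := coord (X := 0) hK hKp hD e1 ht htN i1 i2 j1 j2 h1a h1b h2a h2b (by omega)
      (by omega) hqr (by omega) (by omega)
    have a2 := coord (X := 0) hK hKp hD e2 ht htN i1 i2 j1 j2 h1c h1d h2c h2d (by omega)
      (by omega) hqr (by omega) (by omega)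
    have a3 := coord (X := x.1) hK hKp hD e1 ht htN i1 i2 j1 j2 h1a h1b h2a h2b hxa hxb
      hqr (by omega) (by omega)
    have a4 := coord (X := x.2) hK hKp hD e2 ht htN i1 i2 j1 j2 h1c h1d h2c h2d hxc hxd
      hqr (by omega) (by omega)
    refine ⟨⟨?_, ?_, ?_, ?_⟩, ⟨?_, ?_, ?_, ?_⟩⟩ <;> simp only <;> linarith [a1.1, a1.2, a2.1,
      a2.2, a3.1, a3.2, a4.1, a4.2]
  -- the steps
  have hs1 : ∀ (i j : ℤ),
      Bx z (r + 2 * q) (w.1 - i * v1.1 - j * v2.1, w.2 - i * v1.2 - j * v2.2) ∧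
      Bx z (r + 2 * q) (w.1 - i * v1.1 - j * v2.1 + x.1, w.2 - i * v1.2 - j * v2.2 + x.2) →
      Bx z (r + 2 * q) (w.1 - (i + 1) * v1.1 - j * v2.1, w.2 - (i + 1) * v1.2 - j * v2.2) ∧
      Bx z (r + 2 * q) (w.1 - (i + 1) * v1.1 - j * v2.1 + x.1,
        w.2 - (i + 1) * v1.2 - j * v2.2 + x.2) →
      c (w.1 - (i + 1) * v1.1 - j * v2.1, w.2 - (i + 1) * v1.2 - j * v2.2) =
        c (w.1 - i * v1.1 - j * v2.1, w.2 - i * v1.2 - j * v2.2) ∧
      c (w.1 - (i + 1) * v1.1 - j * v2.1 + x.1, w.2 - (i + 1) * v1.2 - j * v2.2 + x.2) =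
        c (w.1 - i * v1.1 - j * v2.1 + x.1, w.2 - i * v1.2 - j * v2.2 + x.2) := by
    intro i j h h'
    have g1 : (w.1 - (i + 1) * v1.1 - j * v2.1, w.2 - (i + 1) * v1.2 - j * v2.2) + v1 =
        (w.1 - i * v1.1 - j * v2.1, w.2 - i * v1.2 - j * v2.2) := by
      ext <;> simp only [Prod.fst_add, Prod.snd_add] <;> ring
    have g2 : (w.1 - (i + 1) * v1.1 - j * v2.1 + x.1, w.2 - (i + 1) * v1.2 - j * v2.2 + x.2) + v1 =
        (w.1 - i * v1.1 - j * v2.1 + x.1, w.2 - i * v1.2 - j * v2.2 + x.2) := by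
      ext <;> simp only [Prod.fst_add, Prod.snd_add] <;> ring
    have k1 := p1 _ h'.1 (by rw [g1]; exact h.1)
    have k2 := p1 _ h'.2 (by rw [g2]; exact h.2)
    rw [g1] at k1
    rw [g2] at k2
    exact ⟨k1, k2⟩
  have hs2 : ∀ (i j : ℤ),
      Bx z (r + 2 * q) (w.1 - i * v1.1 - j * v2.1, w.2 - i * v1.2 - j * v2.2) ∧
      Bx z (r + 2 * q) (w.1 - i * v1.1 - j * v2.1 + x.1, w.2 - i * v1.2 - j * v2.2 + x.2) →
      Bx z (r + 2 * q) (w.1 - i * v1.1 - (j + 1) * v2.1, w.2 - i * v1.2 - (j + 1) * v2.2) ∧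
      Bx z (r + 2 * q) (w.1 - i * v1.1 - (j + 1) * v2.1 + x.1,
        w.2 - i * v1.2 - (j + 1) * v2.2 + x.2) →
      c (w.1 - i * v1.1 - (j + 1) * v2.1, w.2 - i * v1.2 - (j + 1) * v2.2) =
        c (w.1 - i * v1.1 - j * v2.1, w.2 - i * v1.2 - j * v2.2) ∧
      c (w.1 - i * v1.1 - (j + 1) * v2.1 + x.1, w.2 - i * v1.2 - (j + 1) * v2.2 + x.2) =
        c (w.1 - i * v1.1 - j * v2.1 + x.1, w.2 - i * v1.2 - j * v2.2 + x.2) := by
    intro i j h h'
    have g1 : (w.1 - i * v1.1 - (j + 1) * v2.1, w.2 - i * v1.2 - (j + 1) * v2.2) + v2 =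
        (w.1 - i * v1.1 - j * v2.1, w.2 - i * v1.2 - j * v2.2) := by
      ext <;> simp only [Prod.fst_add, Prod.snd_add] <;> ring
    have g2 : (w.1 - i * v1.1 - (j + 1) * v2.1 + x.1, w.2 - i * v1.2 - (j + 1) * v2.2 + x.2) + v2 =
        (w.1 - i * v1.1 - j * v2.1 + x.1, w.2 - i * v1.2 - j * v2.2 + x.2) := by
      ext <;> simp only [Prod.fst_add, Prod.snd_add] <;> ring
    have k1 := p2 _ h'.1 (by rw [g1]; exact h.1)
    have k2 := p2 _ h'.2 (by rw [g2]; exact h.2)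
    rw [g1] at k1
    rw [g2] at k2
    exact ⟨k1, k2⟩
  -- the path
  have key : ∀ t : ℕ, t ≤ N → ∃ i j : ℤ, K * i ≤ t * α ∧ t * α < K * i + K ∧ K * j ≤ t * β ∧
      t * β < K * j + K ∧
      c (w.1 - i * v1.1 - j * v2.1, w.2 - i * v1.2 - j * v2.2) = c w ∧
      c (w.1 - i * v1.1 - j * v2.1 + x.1, w.2 - i * v1.2 - j * v2.2 + x.2) = c (w + x) := by
    intro t
    induction t with
    | zero =>
      intro _
      refine ⟨0, 0, by simp, by simpa using hKp, by simp, by simpa using hKp, ?_, ?_⟩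
      · congr 1; ext <;> simp
      · congr 1; ext <;> simp
    | succ t ih =>
      intro ht
      obtain ⟨i, j, i1, i2, j1, j2, c1, c2⟩ := ih (by omega)
      have hT : ((t + 1 : ℕ) : ℤ) * α = t * α + α := by push_cast; ring
      have hT' : ((t + 1 : ℕ) : ℤ) * β = t * β + β := by push_cast; ring
      rw [hT, hT']
      have ht' : (t : ℤ) ≤ N := by exact_mod_cast (by omega : t ≤ N)
      have ht1 : ((t : ℤ) + 1) ≤ N := by exact_mod_cast ht
      have hb0 := hB t i j (by omega) ht' (by linarith) (by linarith) (by linarith) (by linarith)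
      -- first step
      obtain ⟨i', i1', i2', c1', c2', hb1⟩ : ∃ i' : ℤ, K * i' ≤ t * α + α ∧ t * α + α < K * i' + K ∧
          c (w.1 - i' * v1.1 - j * v2.1, w.2 - i' * v1.2 - j * v2.2) = c w ∧
          c (w.1 - i' * v1.1 - j * v2.1 + x.1, w.2 - i' * v1.2 - j * v2.2 + x.2) = c (w + x) ∧
          (Bx z (r + 2 * q) (w.1 - i' * v1.1 - j * v2.1, w.2 - i' * v1.2 - j * v2.2) ∧
            Bx z (r + 2 * q) (w.1 - i' * v1.1 - j * v2.1 + x.1,
              w.2 - i' * v1.2 - j * v2.2 + x.2)) := by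
        rcases lt_or_ge (t * α + α) (K * i + K) with h | h
        · exact ⟨i, by linarith, h, c1, c2, hb0⟩
        · have hb1 := hB t (i + 1) j (by omega) ht' (by linarith) (by linarith) (by linarith)
            (by linarith)
          obtain ⟨s1, s2⟩ := hs1 i j hb0 hb1
          exact ⟨i + 1, by linarith, by linarith, s1.trans c1, s2.trans c2, hb1⟩
      rcases lt_or_ge (t * β + β) (K * j + K) with h | h
      · exact ⟨i', j, i1', i2', by linarith, h, c1', c2'⟩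
      · have hb2 := hB (t + 1) i' (j + 1) (by omega) ht1 (by linarith) (by linarith)
          (by linarith) (by linarith)
        obtain ⟨s1, s2⟩ := hs2 i' j hb1 hb2
        exact ⟨i', j + 1, i1', i2', by linarith, by linarith, s1.trans c1', s2.trans c2'⟩
  obtain ⟨i, j, i1, i2, j1, j2, c1, c2⟩ := key N le_rfl
  rw [← c1, ← c2]
  have a1 := coordN (i := i) (j := j) (X := 0) hK hKp e1 (by linarith) (by linarith) (by linarith) (by linarith)
    h1a h1b h2a h2b (by omega) (by omega)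
  have a2 := coordN (i := i) (j := j) (X := 0) hK hKp e2 (by linarith) (by linarith) (by linarith) (by linarith)
    h1c h1d h2c h2d (by omega) (by omega)
  have a3 := coordN (i := i) (j := j) (X := x.1) hK hKp e1 (by linarith) (by linarith) (by linarith) (by linarith)
    h1a h1b h2a h2b hxa hxb
  have a4 := coordN (i := i) (j := j) (X := x.2) hK hKp e2 (by linarith) (by linarith) (by linarith) (by linarith)
    h1c h1d h2c h2d hxc hxd
  have g : (w.1 - i * v1.1 - j * v2.1, w.2 - i * v1.2 - j * v2.2) + x =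
      (w.1 - i * v1.1 - j * v2.1 + x.1, w.2 - i * v1.2 - j * v2.2 + x.2) := rfl
  rw [← g]
  apply px
  · refine ⟨?_, ?_, ?_, ?_⟩ <;> simp only <;> linarith [a1.1, a1.2, a2.1, a2.2]
  · rw [g]
    refine ⟨?_, ?_, ?_, ?_⟩ <;> simp only <;> linarith [a3.1, a3.2, a4.1, a4.2]

theorem bx_neg {q : ℤ} {v : ℤ × ℤ} (h : Bx 0 q v) : Bx 0 q (-v) := by
  obtain ⟨h1, h2, h3, h4⟩ := h
  simp only [Prod.fst_zero, Prod.snd_zero, sub_zero] at *
  refine ⟨?_, ?_, ?_, ?_⟩ <;> simp only [Prod.fst_zero, Prod.snd_zero, sub_zero, Prod.fst_neg,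
    Prod.snd_neg] <;> omega

theorem pe_neg {S : Type u} {c : ℤ × ℤ → S} {z v : ℤ × ℤ} {r : ℤ} (h : Pe c z r v) :
    Pe c z r (-v) := by
  intro w hw hw'
  have := h (w + -v) hw' (by rwa [neg_add_cancel_right])
  rw [neg_add_cancel_right] at this
  exact this.symm

end Ext

theorem t_ext : N_EXT.{u} := by
  intro S c z r q v1 v2 x hq hqr h1 h2 hx hdet p1 p2 px w hw hwx
  -- the coordinates of `w - z`
  obtain ⟨D, α, β, hD, e1, e2⟩ : ∃ D α β : ℤ, 0 < D ∧
      D * (w.1 - z.1) = α * v1.1 + β * v2.1 ∧ D * (w.2 - z.2) = α * v1.2 + β * v2.2 := by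
    rcases lt_or_gt_of_ne hdet with h | h
    · exact ⟨v1.2 * v2.1 - v1.1 * v2.2, (w.2 - z.2) * v2.1 - (w.1 - z.1) * v2.2,
        (w.1 - z.1) * v1.2 - (w.2 - z.2) * v1.1, by linarith, by ring, by ring⟩
    · exact ⟨v1.1 * v2.2 - v1.2 * v2.1, (w.1 - z.1) * v2.2 - (w.2 - z.2) * v2.1,
        (w.2 - z.2) * v1.1 - (w.1 - z.1) * v1.2, by linarith, by ring, by ring⟩
  rcases le_or_gt 0 α with hα | hα
  · rcases le_or_gt 0 β with hβ | hβ
    · exact Ext.main c z r q v1 v2 x w (by omega) h1 h2 hx p1 p2 px hw hwx D α β hD hα hβ e1 e2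
    · exact Ext.main c z r q v1 (-v2) x w (by omega) h1 (Ext.bx_neg h2) hx p1 (Ext.pe_neg p2) px
        hw hwx D α (-β) hD hα (by omega) (by rw [e1]; simp) (by rw [e2]; simp)
  · rcases le_or_gt 0 β with hβ | hβ
    · exact Ext.main c z r q (-v1) v2 x w (by omega) (Ext.bx_neg h1) h2 hx (Ext.pe_neg p1) p2 px
        hw hwx D (-α) β hD (by omega) hβ (by rw [e1]; simp) (by rw [e2]; simp)
    · exact Ext.main c z r q (-v1) (-v2) x w (by omega) (Ext.bx_neg h1) (Ext.bx_neg h2) hx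
        (Ext.pe_neg p1) (Ext.pe_neg p2) px
        hw hwx D (-α) (-β) hD (by omega) (by omega) (by rw [e1]; simp) (by rw [e2]; simp)

end Pool.Agent.TH60.FP
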