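import Pool.Agent.TH60.FP.Defs

/-! FP-LINE and FP-PER (helper147, job 3915). -/

set_option autoImplicit false

universe u v

namespace Pool.Agent.TH60.FP

theorem t_line : N_LINE.{u} := by
  intro S s K W hKW h
  obtain ⟨k, hk0, hkK, hk⟩ := h 0
  have hup : ∀ i : ℤ, (∀ j, i - W ≤ j → j + k ≤ i + W → s j = s (j + k)) →
      ∀ j, i + 1 - W ≤ j → j + k ≤ i + 1 + W → s j = s (j + k) := by
    intro i hi j h1 h2
    by_cases h3 : j + k ≤ i + W
    · exact hi j (by omega) h3
    · obtain ⟨k', hk'0, hk'K, hk'⟩ := h (i + 1)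
      have e1 : s (j - k') = s j := by
        have := hk' (j - k') (by omega) (by omega)
        rwa [sub_add_cancel] at this
      have e2 : s (j - k') = s (j - k' + k) := hi (j - k') (by omega) (by omega)
      have e3 : s (j - k' + k) = s (j + k) := by
        have := hk' (j - k' + k) (by omega) (by omega)
        rwa [show j - k' + k + k' = j + k by ring] at this
      rw [← e1, e2, e3]
  have hdn : ∀ i : ℤ, (∀ j, i - W ≤ j → j + k ≤ i + W → s j = s (j + k)) →
      ∀ j, i - 1 - W ≤ j → j + k ≤ i - 1 + W → s j = s (j + k) := by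
    intro i hi j h1 h2
    by_cases h3 : i - W ≤ j
    · exact hi j h3 (by omega)
    · obtain ⟨k', hk'0, hk'K, hk'⟩ := h (i - 1)
      have e1 : s j = s (j + k') := hk' j (by omega) (by omega)
      have e2 : s (j + k') = s (j + k' + k) := hi (j + k') (by omega) (by omega)
      have e3 : s (j + k) = s (j + k' + k) := by
        have := hk' (j + k) (by omega) (by omega)
        rwa [show j + k + k' = j + k' + k by ring] at this
      rw [e1, e2, e3]
  have hall : ∀ i : ℤ, ∀ j, i - W ≤ j → j + k ≤ i + W → s j = s (j + k) := by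
    intro i
    induction i using Int.induction_on with
    | zero => exact hk
    | succ i ih => exact hup _ ih
    | pred i ih => exact hdn _ ih
  exact ⟨k, hk0, hkK, fun j => hall j j (by omega) (by omega)⟩

theorem t_per (h : N_MAIN.{u}) : N_PER.{u} := by
  classical
  intro S c q hq hc
  refine h S c q (by exact_mod_cast hq) fun z0 => ?_
  set pat : ℤ × ℤ → ({x : ℤ × ℤ // Bx 0 (11 * q) x} → S) := fun z x => c (z + x.1) with hpat
  set T : Finset (ℕ × ℕ) := Finset.range (q + 1) ×ˢ Finset.range (q + 1) with hT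
  have hTc : T.card = (q + 1) ^ 2 := by
    rw [hT, Finset.card_product, Finset.card_range, pow_two]
  set g : ℕ × ℕ → ({x : ℤ × ℤ // Bx 0 (11 * q) x} → S) :=
    fun m => pat (z0 + ((m.1 : ℤ), (m.2 : ℤ))) with hg
  have hninj : ¬ Set.InjOn g (T : Set (ℕ × ℕ)) := by
    intro hinj
    have h1 : (g '' (T : Set (ℕ × ℕ))).encard = ((q + 1) ^ 2 : ℕ) := by
      rw [hinj.encard_image, Set.encard_coe_eq_coe_finsetCard, hTc]
    have h2 : g '' (T : Set (ℕ × ℕ)) ⊆ Set.range pat := by
      rintro _ ⟨m, -, rfl⟩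
      exact ⟨_, rfl⟩
    have h3 := Set.encard_le_encard h2
    rw [h1] at h3
    exact absurd hc (not_lt.2 h3)
  rw [Set.InjOn] at hninj
  push Not at hninj
  obtain ⟨m, hm, m', hm', hgm, hne⟩ := hninj
  rw [hT, Finset.mem_coe, Finset.mem_product, Finset.mem_range, Finset.mem_range] at hm hm'
  refine ⟨(((m'.1 : ℤ) - m.1), ((m'.2 : ℤ) - m.2)), ?_, ?_, ?_⟩
  · intro h0
    rw [Prod.mk_eq_zero] at h0
    apply hne
    refine Prod.ext ?_ ?_
    · have := h0.1; omega
    · have := h0.2; omega
  · refine ⟨?_, ?_, ?_, ?_⟩ <;> simp only [Prod.fst_zero, Prod.snd_zero] <;> omega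
  · intro w hw hwv
    obtain ⟨w1, w2, w3, w4⟩ := hw
    have hb : Bx 0 (11 * q) (w - (z0 + ((m.1 : ℤ), (m.2 : ℤ)))) := by
      refine ⟨?_, ?_, ?_, ?_⟩ <;>
        simp only [Prod.fst_zero, Prod.snd_zero, Prod.fst_sub, Prod.snd_sub, Prod.fst_add,
          Prod.snd_add] <;> omega
    have h5 := congrFun hgm ⟨_, hb⟩
    simp only [hg, hpat] at h5
    rw [add_sub_cancel] at h5
    rw [h5]
    congr 1
    ext
    · simp only [Prod.fst_sub, Prod.fst_add]; ring
    · simp only [Prod.snd_sub, Prod.snd_add]; ring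

end Pool.Agent.TH60.FP
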