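import Pool.Agent.TH60.FP.Defs

/-!
# FP-MAIN: locally periodic configurations on `ℤ²` are periodic
-/

set_option autoImplicit false

universe u v

namespace Pool.Agent.TH60.FP

namespace Main

variable {S : Type u} {c : ℤ × ℤ → S}

lemma pe_mono {z z' : ℤ × ℤ} {r r' : ℤ} {v : ℤ × ℤ} (h : Pe c z r v) (h1 : Bx z (r - r') z') :
    Pe c z' r' v := by
  intro w hw1 hw2
  apply h w
  · simp only [Bx] at *
    omega
  · simp only [Bx] at *
    omega

lemma pe_neg {z : ℤ × ℤ} {r : ℤ} {v : ℤ × ℤ} (h : Pe c z r v) : Pe c z r (-v) := by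
  intro w h1 h2
  have h3 : w + -v + v = w := by ring
  have := h (w + -v) h2 (by rw [h3]; exact h1)
  rw [h3] at this
  exact this.symm

/-- translating a period: `v` is a period around `a` -/
lemma pe_trans {a : ℤ × ℤ} {q : ℤ} (hq : 0 < q) {v u : ℤ × ℤ} (hv : Bx 0 q v)
    (h : Pe c a (10 * q) v) (h1 : Pe c (a + v) (6 * q) u) : Pe c a (6 * q) u := by
  intro w hw1 hw2
  have e1 : c w = c (w + v) := by
    apply h w
    · simp only [Bx, Prod.fst_zero, Prod.snd_zero] at *
      omega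
    · simp only [Bx, Prod.fst_zero, Prod.snd_zero, Prod.fst_add, Prod.snd_add] at *
      omega
  have e2 : c (w + u) = c (w + u + v) := by
    apply h (w + u)
    · simp only [Bx, Prod.fst_zero, Prod.snd_zero, Prod.fst_add, Prod.snd_add] at *
      omega
    · simp only [Bx, Prod.fst_zero, Prod.snd_zero, Prod.fst_add, Prod.snd_add] at *
      omega
  have e3 : c (w + v) = c (w + v + u) := by
    apply h1 (w + v)
    · simp only [Bx, Prod.fst_zero, Prod.snd_zero, Prod.fst_add, Prod.snd_add] at *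
      omega
    · simp only [Bx, Prod.fst_zero, Prod.snd_zero, Prod.fst_add, Prod.snd_add] at *
      omega
  rw [e1, e3, e2]
  congr 1
  ring

/-- neighbours -/
def Ngh (z z' : ℤ × ℤ) : Prop := Bx z 1 z'

lemma lattice_induction {P : ℤ × ℤ → Prop} {z1 : ℤ × ℤ} (h1 : P z1)
    (hs : ∀ z z', Ngh z z' → P z → P z') (z : ℤ × ℤ) : P z := by
  have a1 : ∀ n : ℤ, P (z1.1 + n, z1.2) := by
    intro n
    induction n using Int.induction_on with
    | zero => simpa using h1
    | succ n ih =>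
      refine hs _ _ ?_ ih
      simp only [Ngh, Bx]
      omega
    | pred n ih =>
      refine hs _ _ ?_ ih
      simp only [Ngh, Bx]
      omega
  have a2 : ∀ m : ℤ, P (z.1, z1.2 + m) := by
    intro m
    induction m using Int.induction_on with
    | zero =>
      have := a1 (z.1 - z1.1)
      simpa using this
    | succ n ih =>
      refine hs _ _ ?_ ih
      simp only [Ngh, Bx]
      omega
    | pred n ih =>
      refine hs _ _ ?_ ih
      simp only [Ngh, Bx]
      omega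
  have := a2 (z.2 - z1.2)
  simpa using this

/-- two independent short periods around `a` -/
def Tw (c : ℤ × ℤ → S) (q : ℤ) (a : ℤ × ℤ) : Prop :=
  ∃ u1 u2 : ℤ × ℤ, Bx 0 q u1 ∧ Bx 0 q u2 ∧ u1.1 * u2.2 ≠ u1.2 * u2.1 ∧
    Pe c a (6 * q) u1 ∧ Pe c a (6 * q) u2

lemma tw_step (h1 : N_EXT.{u}) {q : ℤ} (hq : 0 < q) {z z' v : ℤ × ℤ} (hn : Ngh z z')
    (ht : Tw c q z') (hv : Bx 0 q v) (h : Pe c z (4 * q) v) : Pe c z' (4 * q) v := by
  obtain ⟨u1, u2, hu1, hu2, hne, hp1, hp2⟩ := ht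
  refine h1 S c z' (4 * q) q u1 u2 v hq (by omega) hu1 hu2 hv hne ?_ ?_ ?_
  · have : 4 * q + 2 * q = 6 * q := by ring
    rw [this]; exact hp1
  · have : 4 * q + 2 * q = 6 * q := by ring
    rw [this]; exact hp2
  · refine pe_mono h ?_
    simp only [Ngh, Bx] at *
    omega

/-- a period which is valid everywhere in boxes is a period -/
lemma global {q : ℤ} (hq : 0 < q) {v : ℤ × ℤ} (hv : Bx 0 q v) (h : ∀ z, Pe c z (4 * q) v)
    (w : ℤ × ℤ) : c w = c (w + v) := by
  apply h w w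
  · simp only [Bx]; omega
  · simp only [Bx, Prod.fst_zero, Prod.snd_zero, Prod.fst_add, Prod.snd_add] at *
    omega

/-- multiples of a vector -/
def Ml (k : ℤ) (d : ℤ × ℤ) : ℤ × ℤ := (k * d.1, k * d.2)

lemma bx_mul {q k : ℤ} {d : ℤ × ℤ} : Bx 0 q (Ml k d) ↔ |k| * |d.1| ≤ q ∧ |k| * |d.2| ≤ q := by
  simp only [Bx, Ml, Prod.fst_zero, Prod.snd_zero, sub_zero]
  rw [← abs_mul, ← abs_mul, abs_le, abs_le]
  tauto

lemma bx_mul_mono {q k k' : ℤ} {d : ℤ × ℤ} (h : Bx 0 q (Ml k d)) (hk : |k'| ≤ |k|) :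
    Bx 0 q (Ml k' d) := by
  rw [bx_mul] at h ⊢
  constructor
  · exact (mul_le_mul_of_nonneg_right hk (abs_nonneg _)).trans h.1
  · exact (mul_le_mul_of_nonneg_right hk (abs_nonneg _)).trans h.2

/-- primitive vector of a direction -/
lemma exists_prim (v : ℤ × ℤ) (hv : v ≠ 0) : ∃ d : ℤ × ℤ, d ≠ 0 ∧
    ∀ u : ℤ × ℤ, (v.1 * u.2 = v.2 * u.1 → ∃ k : ℤ, u = Ml k d) := by
  obtain ⟨g, hg, hgx, hga, hgb⟩ : ∃ g : ℤ, 0 < g ∧ (∃ x y : ℤ, g = v.1 * x + v.2 * y) ∧
      (∃ a, v.1 = g * a) ∧ ∃ b, v.2 = g * b := by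
    refine ⟨((Int.gcd v.1 v.2 : ℕ) : ℤ), ?_, ⟨_, _, Int.gcd_eq_gcd_ab v.1 v.2⟩,
      Int.gcd_dvd_left v.1 v.2, Int.gcd_dvd_right v.1 v.2⟩
    have : Int.gcd v.1 v.2 ≠ 0 := by
      intro h
      rw [Int.gcd_eq_zero_iff] at h
      exact hv (Prod.ext h.1 h.2)
    omega
  obtain ⟨a, ha⟩ := hga
  obtain ⟨b, hb⟩ := hgb
  have hcop : IsCoprime a b := by
    obtain ⟨x, y, hxy⟩ := hgx
    refine ⟨x, y, ?_⟩
    have : g * (x * a + y * b) = g * 1 := by
      rw [mul_one]
      nth_rewrite 2 [hxy]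
      rw [ha, hb]
      ring
    exact mul_left_cancel₀ (by omega) this
  refine ⟨(a, b), ?_, ?_⟩
  · intro h
    have h1 : a = 0 := congrArg Prod.fst h
    have h2 : b = 0 := congrArg Prod.snd h
    rw [h1, h2] at hcop
    exact not_isCoprime_zero_zero hcop
  · intro u hu
    have h1 : a * u.2 = b * u.1 := by
      have : g * (a * u.2) = g * (b * u.1) := by
        rw [← mul_assoc, ← mul_assoc, ← ha, ← hb]
        exact hu
      exact mul_left_cancel₀ (by omega) this
    have h2 : a ∣ u.1 := by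
      have : a ∣ b * u.1 := ⟨u.2, h1.symm⟩
      exact hcop.dvd_of_dvd_mul_left this
    have h3 : b ∣ u.2 := by
      have : b ∣ a * u.2 := ⟨u.1, h1⟩
      exact hcop.symm.dvd_of_dvd_mul_left this
    by_cases ha0 : a = 0
    · -- then b is a unit
      rw [ha0] at hcop h1 h2
      obtain ⟨k, hk⟩ := h3
      refine ⟨k, Prod.ext ?_ ?_⟩
      · simp only [Ml, ha0, mul_zero]
        exact zero_dvd_iff.mp h2
      · simp only [Ml]
        rw [hk]; ring
    · obtain ⟨k, hk⟩ := h2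
      refine ⟨k, Prod.ext ?_ ?_⟩
      · simp only [Ml]
        rw [hk]; ring
      · simp only [Ml]
        have : a * u.2 = a * (k * b) := by
          rw [h1, hk]; ring
        exact mul_left_cancel₀ ha0 this

lemma mul_bx_self {q k : ℤ} {d : ℤ × ℤ} (hk : k ≠ 0) (h : Bx 0 q (Ml k d)) : Bx 0 q (Ml 1 d) := by
  refine bx_mul_mono h ?_
  rw [abs_one]
  exact Int.one_le_abs hk

lemma mul_add (k l : ℤ) (d : ℤ × ℤ) : Ml (k + l) d = Ml k d + Ml l d := by
  simp only [Ml]
  exact Prod.ext (by simp; ring) (by simp; ring)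

lemma mul_neg (k : ℤ) (d : ℤ × ℤ) : Ml (-k) d = - Ml k d := by
  simp only [Ml]
  exact Prod.ext (by simp) (by simp)

lemma mul_ne {k : ℤ} {d : ℤ × ℤ} (hk : k ≠ 0) (hd : d ≠ 0) : Ml k d ≠ 0 := by
  intro h
  apply hd
  have h1 : k * d.1 = 0 := congrArg Prod.fst h
  have h2 : k * d.2 = 0 := congrArg Prod.snd h
  exact Prod.ext ((mul_eq_zero.mp h1).resolve_left hk) ((mul_eq_zero.mp h2).resolve_left hk)

/-- all short periods around `a` are multiples of `d` -/
def Dir (c : ℤ × ℤ → S) (q : ℤ) (d a : ℤ × ℤ) : Prop :=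
  ∀ u, Bx 0 q u → Pe c a (6 * q) u → ∃ k : ℤ, u = Ml k d

lemma exists_dir {q : ℤ} (hq : 0 < q) {a : ℤ × ℤ} (ha : ¬ Tw c q a)
    (hp : ∃ v, v ≠ 0 ∧ Bx 0 q v ∧ Pe c a (10 * q) v) : ∃ d, d ≠ 0 ∧ Dir c q d a := by
  obtain ⟨v, hv0, hv, hpv⟩ := hp
  obtain ⟨d, hd, hd1⟩ := exists_prim v hv0
  refine ⟨d, hd, fun u hu hpu => hd1 u ?_⟩
  by_contra hcon
  refine ha ⟨v, u, hv, hu, hcon, pe_mono hpv ?_, hpu⟩
  simp only [Bx]
  omega

/-- a positive multiple of `d` is a period -/
lemma dir_period {q : ℤ} (hq : 0 < q) {a d : ℤ × ℤ} (hd : Dir c q d a)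
    (hp : ∃ v, v ≠ 0 ∧ Bx 0 q v ∧ Pe c a (10 * q) v) :
    ∃ k : ℤ, 0 < k ∧ Bx 0 q (Ml k d) ∧ Pe c a (10 * q) (Ml k d) := by
  obtain ⟨v, hv0, hv, hpv⟩ := hp
  obtain ⟨k, hk⟩ := hd v hv (pe_mono hpv (by simp only [Bx]; omega))
  have hk0 : k ≠ 0 := by
    rintro rfl
    apply hv0
    rw [hk]
    simp [Ml]
  rcases lt_or_gt_of_ne hk0 with h | h
  · refine ⟨-k, by omega, ?_, ?_⟩
    · refine bx_mul_mono (k := k) (by rw [← hk]; exact hv) (by rw [abs_neg])
    · rw [mul_neg, ← hk]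
      exact pe_neg hpv
  · exact ⟨k, h, by rw [← hk]; exact hv, by rw [← hk]; exact hpv⟩

lemma dir_trans {q : ℤ} (hq : 0 < q) {a d v : ℤ × ℤ} (hd : Dir c q d a) (hv : Bx 0 q v)
    (hpv : Pe c a (10 * q) v) : Dir c q d (a + v) := by
  intro u hu hpu
  exact hd u hu (pe_trans hq hv hpv hpu)

lemma line_points {q : ℤ} (hq : 0 < q) (hp : ∀ z, ∃ v, v ≠ 0 ∧ Bx 0 q v ∧ Pe c z (10 * q) v)
    {z d : ℤ × ℤ} (hd : Dir c q d z) (t : ℤ) :
    ∃ i : ℤ, Bx 0 q (Ml (i - t) d) ∧ Dir c q d (z + Ml i d) := by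
  have hz : Bx 0 q (Ml 0 d) := by
    rw [bx_mul]
    simp
    omega
  induction t using Int.induction_on with
  | zero =>
    refine ⟨0, by simpa using hz, ?_⟩
    have : z + Ml 0 d = z := by
      simp only [Ml]
      exact Prod.ext (by simp) (by simp)
    rw [this]
    exact hd
  | succ t ih =>
    obtain ⟨i, hi, hdi⟩ := ih
    by_cases h : (t : ℤ) + 1 ≤ i
    · refine ⟨i, bx_mul_mono hi ?_, hdi⟩
      rw [abs_of_nonneg (by omega), abs_of_nonneg (by omega)]
      omega
    · obtain ⟨k, hk, hkb, hkp⟩ := dir_period hq hdi (hp _)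
      refine ⟨i + k, ?_, ?_⟩
      · by_cases h' : (t : ℤ) + 1 ≤ i + k
        · refine bx_mul_mono hkb ?_
          rw [abs_of_nonneg (by omega), abs_of_nonneg (by omega)]
          omega
        · refine bx_mul_mono hi ?_
          rw [abs_of_nonpos (by omega), abs_of_nonpos (by omega)]
          omega
      · rw [mul_add, ← add_assoc]
        exact dir_trans hq hdi hkb hkp
  | pred t ih =>
    obtain ⟨i, hi, hdi⟩ := ih
    by_cases h : i ≤ -(t : ℤ) - 1
    · refine ⟨i, bx_mul_mono hi ?_, hdi⟩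
      rw [abs_of_nonpos (by omega), abs_of_nonpos (by omega)]
      omega
    · obtain ⟨k, hk, hkb, hkp⟩ := dir_period hq hdi (hp _)
      have hkb' : Bx 0 q (Ml (-k) d) := bx_mul_mono hkb (by rw [abs_neg])
      refine ⟨i + -k, ?_, ?_⟩
      · by_cases h' : i + -k ≤ -(t : ℤ) - 1
        · refine bx_mul_mono hkb ?_
          rw [abs_of_nonpos (by omega), abs_of_nonneg (by omega)]
          omega
        · refine bx_mul_mono hi ?_
          rw [abs_of_nonneg (by omega), abs_of_nonneg (by omega)]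
          omega
      · rw [mul_add, ← add_assoc]
        refine dir_trans hq hdi hkb' ?_
        rw [mul_neg]
        exact pe_neg hkp

lemma small_comp {D x r r' a a' q : ℤ} (hD : D ≠ 0) (hr : 0 ≤ r) (hr1 : r < |D|) (hr' : 0 ≤ r')
    (hr1' : r' < |D|) (ha : |a| ≤ q) (ha' : |a'| ≤ q) (h : D * x = r * a - r' * a') :
    |x| ≤ 2 * q := by
  have hDp : 0 < |D| := abs_pos.mpr hD
  have h1 : |D| * |x| ≤ |D| * (2 * q) := by
    rw [← abs_mul, h]
    calc |r * a - r' * a'| ≤ |r * a| + |r' * a'| := abs_sub _ _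
      _ = r * |a| + r' * |a'| := by rw [abs_mul, abs_mul, abs_of_nonneg hr, abs_of_nonneg hr']
      _ ≤ |D| * q + |D| * q := by
        have hq0 : 0 ≤ q := (abs_nonneg a).trans ha
        refine add_le_add ?_ ?_
        · exact mul_le_mul hr1.le ha (abs_nonneg _) hDp.le
        · exact mul_le_mul hr1'.le ha' (abs_nonneg _) hDp.le
      _ = _ := by ring
  exact le_of_mul_le_mul_left h1 hDp

/-- two directions: the points are close somewhere -/
lemma same_dir {q : ℤ} (hq : 0 < q) (hp : ∀ z, ∃ v, v ≠ 0 ∧ Bx 0 q v ∧ Pe c z (10 * q) v)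
    {z z' d d' : ℤ × ℤ} (hd0 : d ≠ 0) (hd0' : d' ≠ 0) (hd : Dir c q d z) (hd' : Dir c q d' z') :
    d.1 * d'.2 = d.2 * d'.1 := by
  by_contra hne
  obtain ⟨k, hk, hkb, _⟩ := dir_period hq hd (hp z)
  obtain ⟨k', hk', hkb', _⟩ := dir_period hq hd' (hp z')
  have hb := mul_bx_self hk.ne' hkb
  have hb' := mul_bx_self hk'.ne' hkb'
  rw [bx_mul] at hb hb'
  simp only [abs_one, one_mul] at hb hb'
  -- crossing of the lines
  set D : ℤ := d.1 * d'.2 - d.2 * d'.1 with hDdef
  have hD : D ≠ 0 := fun h => hne (by omega)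
  set A : ℤ := (z'.1 - z.1) * d'.2 - (z'.2 - z.2) * d'.1 with hA
  set A' : ℤ := (z'.1 - z.1) * d.2 - (z'.2 - z.2) * d.1 with hA'
  obtain ⟨i, hi, hdi⟩ := line_points hq hp hd (A / D)
  obtain ⟨i', hi', hdi'⟩ := line_points hq hp hd' (A' / D)
  have hr0 := Int.emod_nonneg A hD
  have hr1 := Int.emod_lt_abs A hD
  have hr0' := Int.emod_nonneg A' hD
  have hr1' := Int.emod_lt_abs A' hD
  have eA : A % D = A - D * (A / D) := by rw [Int.emod_def]
  have eA' : A' % D = A' - D * (A' / D) := by rw [Int.emod_def]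
  have c1 : |z'.1 - z.1 - (A / D) * d.1 + (A' / D) * d'.1| ≤ 2 * q := by
    refine small_comp hD hr0 hr1 hr0' hr1' hb.1 hb'.1 ?_
    rw [eA, eA']
    have : D * (z'.1 - z.1) = A * d.1 - A' * d'.1 := by
      rw [hDdef, hA, hA']; ring
    linear_combination this
  have c2 : |z'.2 - z.2 - (A / D) * d.2 + (A' / D) * d'.2| ≤ 2 * q := by
    refine small_comp hD hr0 hr1 hr0' hr1' hb.2 hb'.2 ?_
    rw [eA, eA']
    have : D * (z'.2 - z.2) = A * d.2 - A' * d'.2 := by
      rw [hDdef, hA, hA']; ring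
    linear_combination this
  -- the two points
  obtain ⟨m, hm, hmb, hmp⟩ := dir_period hq hdi (hp _)
  have hfar : Bx (z + Ml i d) (10 * q - 6 * q) (z' + Ml i' d') := by
    simp only [Bx, Ml, Prod.fst_zero, Prod.snd_zero, Prod.fst_add, Prod.snd_add, sub_zero]
      at hi hi' ⊢
    rw [abs_le] at c1 c2
    have x1 : (i - A / D) * d.1 = i * d.1 - A / D * d.1 := by ring
    have x2 : (i - A / D) * d.2 = i * d.2 - A / D * d.2 := by ring
    have x3 : (i' - A' / D) * d'.1 = i' * d'.1 - A' / D * d'.1 := by ring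
    have x4 : (i' - A' / D) * d'.2 = i' * d'.2 - A' / D * d'.2 := by ring
    rw [x1, x2] at hi
    rw [x3, x4] at hi'
    refine ⟨?_, ?_, ?_, ?_⟩ <;> linarith
  obtain ⟨n, hn⟩ := hdi' _ hmb (pe_mono hmp hfar)
  -- Ml m d = Ml n d'
  have e1 : m * d.1 = n * d'.1 := congrArg Prod.fst hn
  have e2 : m * d.2 = n * d'.2 := congrArg Prod.snd hn
  apply hne
  have : m * (d.1 * d'.2) = m * (d.2 * d'.1) := by
    calc m * (d.1 * d'.2) = (m * d.1) * d'.2 := by ring
      _ = (n * d'.1) * d'.2 := by rw [e1]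
      _ = (n * d'.2) * d'.1 := by ring
      _ = (m * d.2) * d'.1 := by rw [e2]
      _ = _ := by ring
  exact mul_left_cancel₀ hm.ne' this

/-- iteration of a period on a line -/
lemma iterate {s : ℤ → S} {k : ℤ} (h : ∀ j, s j = s (j + k)) (n : ℕ) (j : ℤ) :
    s j = s (j + n * k) := by
  induction n with
  | zero => simp
  | succ n ih =>
    rw [ih, h]
    congr 1
    push_cast
    ring

end Main

open Main

theorem t_main (h1 : N_EXT.{u}) (h2 : N_LINE.{u}) : N_MAIN.{u} := by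
  intro S c q hq hp
  by_cases hall : ∀ a, Tw c q a
  · -- case II
    obtain ⟨v, hv0, hv, hpv⟩ := hp 0
    have h4 : Pe c 0 (4 * q) v := pe_mono hpv (by simp only [Bx]; omega)
    refine ⟨v, hv0, global hq hv fun z => ?_⟩
    exact lattice_induction (P := fun z => Pe c z (4 * q) v) h4
      (fun z z' hn hz => tw_step h1 hq hn (hall z') hv hz) z
  · push Not at hall
    obtain ⟨z1, hz1⟩ := hall
    obtain ⟨d, hd0, hd⟩ := exists_dir hq hz1 (hp z1)
    -- all short periods at points of type one are multiples of d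
    have hdir : ∀ z, ¬ Tw c q z → ∀ u, Bx 0 q u → Pe c z (6 * q) u → u.1 * d.2 = u.2 * d.1 := by
      intro z hz u hu hpu
      obtain ⟨d', hd0', hd'⟩ := exists_dir hq hz (hp z)
      have e := same_dir hq hp hd0 hd0' hd hd'
      obtain ⟨k, hk⟩ := hd' u hu hpu
      rw [hk]
      simp only [Ml]
      linear_combination (-k) * e
    -- every point has a short period in direction d
    have hev : ∀ z, ∃ v, v ≠ 0 ∧ Bx 0 q v ∧ v.1 * d.2 = v.2 * d.1 ∧ Pe c z (4 * q) v := by
      intro z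
      refine lattice_induction (P := fun z => ∃ v, v ≠ 0 ∧ Bx 0 q v ∧ v.1 * d.2 = v.2 * d.1 ∧
        Pe c z (4 * q) v) (z1 := z1) ?_ ?_ z
      · obtain ⟨v, hv0, hv, hpv⟩ := hp z1
        exact ⟨v, hv0, hv, hdir z1 hz1 v hv (pe_mono hpv (by simp only [Bx]; omega)),
          pe_mono hpv (by simp only [Bx]; omega)⟩
      · rintro z z' hn ⟨v, hv0, hv, hvd, hpv⟩
        by_cases ht : Tw c q z'
        · exact ⟨v, hv0, hv, hvd, tw_step h1 hq hn ht hv hpv⟩
        · obtain ⟨v', hv0', hv', hpv'⟩ := hp z'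
          exact ⟨v', hv0', hv', hdir z' ht v' hv' (pe_mono hpv' (by simp only [Bx]; omega)),
            pe_mono hpv' (by simp only [Bx]; omega)⟩
    -- a primitive vector
    obtain ⟨e, he0, he⟩ := exists_prim d hd0
    have hev' : ∀ z, ∃ k : ℤ, 0 < k ∧ Bx 0 q (Ml k e) ∧ Pe c z (4 * q) (Ml k e) := by
      intro z
      obtain ⟨v, hv0, hv, hvd, hpv⟩ := hev z
      obtain ⟨k, hk⟩ := he v (by linear_combination hvd.symm)
      have hk0 : k ≠ 0 := by
        rintro rfl
        apply hv0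
        rw [hk]
        simp [Ml]
      rcases lt_or_gt_of_ne hk0 with h | h
      · refine ⟨-k, by omega, ?_, ?_⟩
        · exact bx_mul_mono (k := k) (by rw [← hk]; exact hv) (by rw [abs_neg])
        · rw [Main.mul_neg, ← hk]
          exact pe_neg hpv
      · exact ⟨k, h, by rw [← hk]; exact hv, by rw [← hk]; exact hpv⟩
    set N : ℤ := max |e.1| |e.2| with hN
    have hN1 : 1 ≤ N := by
      by_contra hcon
      have h3 : |e.1| ≤ 0 := by
        have := le_max_left |e.1| |e.2|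
        omega
      have h4 : |e.2| ≤ 0 := by
        have := le_max_right |e.1| |e.2|
        omega
      exact he0 (Prod.ext (abs_nonpos_iff.mp h3) (abs_nonpos_iff.mp h4))
    have hbN : ∀ r k : ℤ, Bx 0 r (Ml k e) ↔ |k| * N ≤ r := by
      intro r k
      rw [bx_mul]
      constructor
      · rintro ⟨h3, h4⟩
        rcases max_cases |e.1| |e.2| with h | h
        · rw [hN, h.1]; exact h3
        · rw [hN, h.1]; exact h4
      · intro h3
        have h5 : |k| * |e.1| ≤ |k| * N :=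
          mul_le_mul_of_nonneg_left (le_max_left _ _) (abs_nonneg _)
        have h6 : |k| * |e.2| ≤ |k| * N :=
          mul_le_mul_of_nonneg_left (le_max_right _ _) (abs_nonneg _)
        exact ⟨h5.trans h3, h6.trans h3⟩
    have hline : ∀ w : ℤ × ℤ, ∃ k : ℤ, 0 < k ∧ k ≤ q / N ∧
        ∀ j : ℤ, c (w + Ml j e) = c (w + Ml (j + k) e) := by
      intro w
      refine h2 S (fun j => c (w + Ml j e)) (q / N) (4 * q / N) ?_ ?_
      · exact Int.ediv_le_ediv (by omega) (by omega)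
      · intro i
        obtain ⟨k, hk, hkb, hkp⟩ := hev' (w + Ml i e)
        have hkN : k * N ≤ q := by
          have := (hbN q k).mp hkb
          rwa [abs_of_pos hk] at this
        refine ⟨k, hk, (Int.le_ediv_iff_mul_le (by omega)).mpr hkN, fun j hj1 hj2 => ?_⟩
        have hW : 4 * q / N * N ≤ 4 * q := Int.ediv_mul_le _ (by omega)
        have hin : ∀ l : ℤ, |l| ≤ 4 * q / N → Bx (w + Ml i e) (4 * q) (w + Ml (i + l) e) := by
          intro l hl
          have h3 : Bx 0 (4 * q) (Ml l e) := by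
            rw [hbN]
            exact (mul_le_mul_of_nonneg_right hl (by omega)).trans hW
          rw [Main.mul_add]
          simp only [Bx, Prod.fst_zero, Prod.snd_zero, Prod.fst_add, Prod.snd_add] at *
          omega
        have e1 : w + Ml (j + k) e = w + Ml j e + Ml k e := by
          rw [Main.mul_add, add_assoc]
        have h5 := hin (j - i) (by rw [abs_le]; omega)
        have h6 := hin (j + k - i) (by rw [abs_le]; omega)
        rw [show i + (j - i) = j by ring] at h5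
        rw [show i + (j + k - i) = j + k by ring, e1] at h6
        change c (w + Ml j e) = c (w + Ml (j + k) e)
        rw [e1]
        exact hkp _ h5 h6
    -- the factorial
    refine ⟨Ml ((q.toNat).factorial : ℤ) e, mul_ne ?_ he0, fun w => ?_⟩
    · exact_mod_cast (Nat.factorial_pos _).ne'
    · obtain ⟨k, hk, hkq, hper⟩ := hline w
      have hkq' : k ≤ q := hkq.trans (Int.ediv_le_self _ hq.le)
      obtain ⟨m, hm⟩ : ((k.toNat : ℕ)) ∣ (q.toNat).factorial :=
        Nat.dvd_factorial (by omega) (by omega)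
      have h3 := iterate (s := fun j => c (w + Ml j e)) hper m 0
      have h4 : (0 : ℤ) + (m : ℤ) * k = ((q.toNat).factorial : ℤ) := by
        rw [hm]
        push_cast
        rw [Int.toNat_of_nonneg hk.le]
        ring
      rw [h4] at h3
      have h5 : w + Ml 0 e = w := by
        simp only [Ml]
        exact Prod.ext (by simp) (by simp)
      simp only [h5] at h3
      exact h3

end Pool.Agent.TH60.FP
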