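import Pool.Agent.TH60.FP.Defs

/-!
# The line of midpoints of two synchronised parallel lines
-/

set_option autoImplicit false

universe u v

namespace Pool.Agent.TH60.FP

namespace Mid

lemma le_of_sq {d y : ℝ} (hy : 0 ≤ y) (h : d ^ 2 ≤ y ^ 2) : d ≤ y := by
  by_contra hlt
  push Not at hlt
  nlinarith

lemma root_bound {d x e : ℝ} (hx : 0 < x) (he : 0 ≤ e) (h : d ^ 2 ≤ x ^ 2 + e) :
    d ≤ x + e / (2 * x) := by
  have h1 : 0 ≤ e / (2 * x) := by positivity
  refine le_of_sq (by positivity) (h.trans ?_)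
  have h2 : (x + e / (2 * x)) ^ 2 = x ^ 2 + e + (e / (2 * x)) ^ 2 := by
    field_simp
    ring
  rw [h2]
  nlinarith [sq_nonneg (e / (2 * x))]

variable {X : Type u} [MetricSpace X]

lemma dist_a {a : ℝ → X} (ha : Isometry a) (s t : ℝ) : dist (a s) (a t) ^ 2 = (t - s) ^ 2 := by
  rw [ha.dist_eq, Real.dist_eq, sq_abs]
  ring

end Mid

open Mid

theorem t_mid (h : C_STRIP.{u}) : C_MID.{u} := by
  intro X _ hCN a b ha hb hab
  have hmid : ∀ t : ℝ, ∃ m : X, ∀ x : X,
      dist x m ^ 2 ≤ (dist x (a t) ^ 2 + dist x (b t) ^ 2) / 2 - dist (a t) (b t) ^ 2 / 4 :=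
    fun t => hCN (a t) (b t)
  choose m hm using hmid
  set D : ℝ := dist (a 0) (b 0) with hD
  have hDt : ∀ t, dist (a t) (b t) ^ 2 = D ^ 2 := by
    intro t
    rw [hab t t, sub_self]
    ring
  have ham : ∀ s t : ℝ, dist (a s) (m t) ^ 2 ≤ (t - s) ^ 2 + D ^ 2 / 4 := by
    intro s t
    have h1 := hm t (a s)
    rw [hDt, dist_a ha, hab s t] at h1
    linarith
  have hbm : ∀ s t : ℝ, dist (b s) (m t) ^ 2 ≤ (t - s) ^ 2 + D ^ 2 / 4 := by
    intro s t
    have h1 := hm t (b s)
    rw [hDt, dist_a hb, dist_comm (b s) (a t), hab t s] at h1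
    nlinarith
  have hup : ∀ s t : ℝ, dist (m s) (m t) ^ 2 ≤ (t - s) ^ 2 := by
    intro s t
    have h1 := hm t (m s)
    rw [hDt, dist_comm (m s) (a t), dist_comm (m s) (b t)] at h1
    have h2 := ham t s
    have h3 := hbm t s
    nlinarith
  have hlow : ∀ s t : ℝ, s < t → t - s ≤ dist (m s) (m t) := by
    intro s t hst
    by_contra hcon
    push Not at hcon
    set d : ℝ := dist (m s) (m t) with hd
    set e : ℝ := D ^ 2 / 4 with he
    have he0 : 0 ≤ e := by positivity
    set δ : ℝ := t - s - d with hδ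
    have hδ0 : 0 < δ := by linarith
    set L : ℝ := e / δ + 1 + |s| + |t| with hL
    have hq : 0 ≤ e / δ := by positivity
    have hs1 : -|s| ≤ s := neg_abs_le s
    have ht1 : t ≤ |t| := le_abs_self t
    have hs0 : 0 ≤ |s| := abs_nonneg s
    have ht0 : 0 ≤ |t| := abs_nonneg t
    have hx1 : 0 < L + s := by rw [hL]; linarith
    have hx2 : 0 < L - t := by rw [hL]; linarith
    have h1 : dist (a (-L)) (m s) ≤ (L + s) + e / (2 * (L + s)) := by
      apply root_bound hx1 he0
      have := ham (-L) s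
      nlinarith
    have h2 : dist (a L) (m t) ≤ (L - t) + e / (2 * (L - t)) := by
      apply root_bound hx2 he0
      have := ham L t
      nlinarith
    have h3 : dist (a (-L)) (a L) ≤ dist (a (-L)) (m s) + dist (m s) (m t) + dist (m t) (a L) :=
      dist_triangle4 _ _ _ _
    have h4 : dist (a (-L)) (a L) = 2 * L := by
      rw [ha.dist_eq, Real.dist_eq]
      have : 0 < L := by rw [hL]; linarith
      rw [show -L - L = -(2 * L) by ring, abs_neg, abs_of_pos (by linarith)]
    rw [h4, dist_comm (m t) (a L)] at h3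
    have h5 : e / (2 * (L + s)) < δ / 2 := by
      rw [div_lt_iff₀ (by linarith)]
      have : e / δ < L + s := by rw [hL]; linarith
      rw [div_lt_iff₀ hδ0] at this
      nlinarith
    have h6 : e / (2 * (L - t)) < δ / 2 := by
      rw [div_lt_iff₀ (by linarith)]
      have : e / δ < L - t := by rw [hL]; linarith
      rw [div_lt_iff₀ hδ0] at this
      nlinarith
    linarith
  have hup' : ∀ s t : ℝ, s < t → dist (m s) (m t) ≤ t - s := by
    intro s t hst
    exact le_of_sq (by linarith) (hup s t)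
  have hiso : Isometry m := by
    apply Isometry.of_dist_eq
    intro s t
    rw [Real.dist_eq]
    rcases lt_trichotomy s t with hst | hst | hst
    · rw [abs_of_neg (by linarith)]
      linarith [hup' s t hst, hlow s t hst]
    · subst hst
      simp
    · rw [abs_of_pos (by linarith), dist_comm]
      linarith [hup' t s hst, hlow t s hst]
  refine ⟨m, hiso, ?_, hm 0⟩
  have hpar : Par a m := by
    refine ⟨|D|, fun t => ?_⟩
    apply le_of_sq (abs_nonneg _)
    have := ham t t
    rw [sq_abs]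
    nlinarith [sq_nonneg D]
  obtain ⟨o, ho⟩ := h X hCN a m ha hiso hpar
  have ho0 : o = 0 := by
    by_contra hne
    have key : ∀ w : ℝ, dist (a 0) (m (0 + o)) ^ 2 ≤ 2 * w * o + o ^ 2 + D ^ 2 / 4 := by
      intro w
      have h1 := ho 0 w
      simp only [sub_zero] at h1
      have h2 := ham 0 (w + o)
      nlinarith
    have h1 := key (-(o ^ 2 + D ^ 2 / 4 + 1) / (2 * o))
    have h2 : 2 * (-(o ^ 2 + D ^ 2 / 4 + 1) / (2 * o)) * o = -(o ^ 2 + D ^ 2 / 4 + 1) := by
      field_simp
    rw [h2] at h1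
    nlinarith [sq_nonneg (dist (a 0) (m (0 + o)))]
  subst ho0
  intro s t
  have := ho s t
  simpa using this

end Pool.Agent.TH60.FP
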