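import Pool.Agent.TH60.FP.Defs
set_option autoImplicit false
universe u v
namespace Pool.Agent.TH60.FP

theorem t_sel : X_SEL.{u, v} := by
  intro X _ G _ _ F g τ B S ε hε
  haveI := S.proper
  haveI := S.isom
  haveI := S.disc
  obtain ⟨K, hK, hcov⟩ := S.cc
  have hτ := S.pos
  have hfl : ∀ x y x' y' : ℝ, dist (F x y) (F x' y') ^ 2 = (x - x') ^ 2 + (y - y') ^ 2 := S.flat
  have hflx : ∀ x x' y : ℝ, dist (F x y) (F x' y) = |x - x'| := fun x x' y => by
    have h := hfl x y x' y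
    rw [sub_self, zero_pow two_ne_zero, add_zero] at h
    rw [← sq_eq_sq₀ dist_nonneg (abs_nonneg _), h, sq_abs]
  have hfly : ∀ x y y' : ℝ, dist (F x y) (F x y') = |y - y'| := fun x y y' => by
    have h := hfl x y x y'
    rw [sub_self, zero_pow two_ne_zero, zero_add] at h
    rw [← sq_eq_sq₀ dist_nonneg (abs_nonneg _), h, sq_abs]
  choose a ha using fun j : ℕ => hcov (F 0 j)
  -- the two compact sets
  have hK1 : IsCompact (Metric.cthickening 1 K) := hK.cthickening
  have hK2 : IsCompact (Metric.cthickening (B + τ) K) := hK.cthickening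
  have hfin : Set.Finite {γ : G | ((γ • ·) '' K ∩ Metric.cthickening (B + τ) K).Nonempty} :=
    ProperlyDiscontinuousSMul.finite_disjoint_inter_image hK hK2
  let s : ℕ → G := fun j => a j * g * (a j)⁻¹
  have hs : ∀ j, s j ∈ {γ : G | ((γ • ·) '' K ∩ Metric.cthickening (B + τ) K).Nonempty} := by
    intro j
    refine ⟨s j • (a j • F 0 j), ⟨_, ha j, rfl⟩, ?_⟩
    refine Metric.mem_cthickening_of_dist_le _ (a j • F 0 j) _ _ (ha j) ?_
    have h1 : s j • (a j • F 0 j) = a j • (g • F 0 j) := by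
      simp only [s, smul_smul, mul_assoc, inv_mul_cancel, mul_one]
    rw [h1, dist_smul]
    have h2 := S.per 1 0 j
    rw [zpow_one] at h2
    have h3 : dist (F (0 + ((1 : ℤ) : ℝ) * τ) (j : ℝ)) (F 0 j) = τ := by
      rw [hflx]
      simp [abs_of_pos hτ]
    calc dist (g • F 0 j) (F 0 j) ≤ dist (g • F 0 j) (F (0 + ((1 : ℤ) : ℝ) * τ) j) +
        dist (F (0 + ((1 : ℤ) : ℝ) * τ) (j : ℝ)) (F 0 j) := dist_triangle _ _ _
      _ ≤ B + τ := by rw [h3]; linarith
  have hu : ∀ j : ℕ, a j • F 0 (j : ℝ) ∈ Metric.cthickening 1 K := fun j =>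
    Metric.self_subset_cthickening K (ha j)
  have hv : ∀ j : ℕ, a j • F 0 ((j : ℝ) - 1) ∈ Metric.cthickening 1 K := fun j => by
    refine Metric.mem_cthickening_of_dist_le _ (a j • F 0 j) _ _ (ha j) ?_
    rw [dist_smul, hfly]
    simp
  obtain ⟨T, -, hTf, hT⟩ := Metric.totallyBounded_iff.1 hK1.totallyBounded (ε / 2) (half_pos hε) |>.elim
    (fun T hT => (⟨T, trivial, hT.1, hT.2⟩ : ∃ T : Set X, True ∧ T.Finite ∧
      Metric.cthickening 1 K ⊆ ⋃ y ∈ T, Metric.ball y (ε / 2)))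
  have hpick : ∀ x : X, x ∈ Metric.cthickening 1 K → ∃ t : T, dist x t < ε / 2 := by
    intro x hx
    have h := hT hx
    simp only [Set.mem_iUnion, Metric.mem_ball, exists_prop] at h
    obtain ⟨t, ht, h'⟩ := h
    exact ⟨⟨t, ht⟩, h'⟩
  choose tu htu using fun j => hpick _ (hu j)
  choose tv htv using fun j => hpick _ (hv j)
  haveI : Finite T := hTf
  haveI : Finite {γ : G | ((γ • ·) '' K ∩ Metric.cthickening (B + τ) K).Nonempty} := hfin
  obtain ⟨n, m, hnm, he⟩ := Finite.exists_ne_map_eq_of_infinite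
    (fun j : ℕ => (tu j, tv j, (⟨s j, hs j⟩ :
      {γ : G | ((γ • ·) '' K ∩ Metric.cthickening (B + τ) K).Nonempty})))
  have key : ∀ n m : ℕ, tu n = tu m → tv n = tv m → s n = s m →
      Commute g ((a m)⁻¹ * a n) ∧ dist (((a m)⁻¹ * a n) • F 0 n) (F 0 m) ≤ ε ∧
      dist (((a m)⁻¹ * a n) • F 0 ((n : ℝ) - 1)) (F 0 ((m : ℝ) - 1)) ≤ ε := by
    intro n m h1 h2 h3
    have hd : ∀ x y : X, dist (((a m)⁻¹ * a n) • x) y = dist (a n • x) (a m • y) := by
      intro x y
      rw [mul_smul, ← dist_smul (a m) ((a m)⁻¹ • a n • x) y, smul_inv_smul]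
    refine ⟨?_, ?_, ?_⟩
    · have h4 : a n * g * (a n)⁻¹ = a m * g * (a m)⁻¹ := h3
      show g * ((a m)⁻¹ * a n) = (a m)⁻¹ * a n * g
      have h5 : a n * g = a m * g * (a m)⁻¹ * a n := by
        rw [← h4]; group
      rw [mul_assoc (a m)⁻¹ (a n) g, h5]
      group
    · rw [hd]
      calc dist (a n • F 0 (n : ℝ)) (a m • F 0 (m : ℝ)) ≤ dist (a n • F 0 (n : ℝ)) (tu n) +
          dist (a m • F 0 (m : ℝ)) (tu n) := dist_triangle_right _ _ _
        _ ≤ ε := by
          have h6 := htu n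
          have h7 := htu m
          rw [← h1] at h7
          linarith
    · rw [hd]
      calc dist (a n • F 0 ((n : ℝ) - 1)) (a m • F 0 ((m : ℝ) - 1)) ≤
          dist (a n • F 0 ((n : ℝ) - 1)) (tv n) +
          dist (a m • F 0 ((m : ℝ) - 1)) (tv n) := dist_triangle_right _ _ _
        _ ≤ ε := by
          have h6 := htv n
          have h7 := htv m
          rw [← h2] at h7
          linarith
  simp only [Prod.mk.injEq, Subtype.mk.injEq] at he
  rcases lt_or_gt_of_ne hnm with h | h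
  · exact ⟨n, m, _, h, key n m he.1 he.2.1 he.2.2⟩
  · exact ⟨m, n, _, h, key m n he.1.symm he.2.1.symm he.2.2.symm⟩

end Pool.Agent.TH60.FP
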