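import Pool.Agent.TH60.FP.Defs

/-!
# Flat strip theorem from the inequality of Bruhat and Tits
-/

set_option autoImplicit false

universe u v

namespace Pool.Agent.TH60.FP

namespace Strip

variable {X : Type u} [MetricSpace X]

theorem dd {c : ℝ → X} (hc : Isometry c) (a b : ℝ) : dist (c a) (c b) ^ 2 = (a - b) ^ 2 := by
  rw [hc.dist_eq, Real.dist_eq, sq_abs]

theorem line_cn (hX : CN X) {c : ℝ → X} (hc : Isometry c) (x : X) (s r : ℝ) :
    dist x (c s) ^ 2 ≤ (dist x (c (s - r)) ^ 2 + dist x (c (s + r)) ^ 2) / 2 - r ^ 2 := by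
  obtain ⟨m, hm⟩ := hX (c (s - r)) (c (s + r))
  have h1 := hm (c s)
  rw [dd hc, dd hc, dd hc] at h1
  have h2 : dist (c s) m ^ 2 ≤ 0 := by
    have e : ((s - (s - r)) ^ 2 + (s - (s + r)) ^ 2) / 2 - (s - r - (s + r)) ^ 2 / 4 = 0 := by ring
    rw [e] at h1
    exact h1
  have h3 : dist (c s) m = 0 := by
    have : dist (c s) m ^ 2 = 0 := le_antisymm h2 (sq_nonneg _)
    exact pow_eq_zero_iff (two_ne_zero) |>.mp this
  have h4 : c s = m := dist_eq_zero.mp h3
  have h5 := hm x
  rw [dd hc, ← h4] at h5
  have e : (s - r - (s + r)) ^ 2 / 4 = r ^ 2 := by ring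
  rw [e] at h5
  exact h5

theorem four (hX : CN X) (a b c e : X) :
    dist a c ^ 2 + dist b e ^ 2 ≤ dist a b ^ 2 + dist b c ^ 2 + dist c e ^ 2 + dist e a ^ 2 := by
  obtain ⟨m, hm⟩ := hX b e
  have h1 := hm a
  have h2 := hm c
  have h3 : dist a c ^ 2 ≤ 2 * dist a m ^ 2 + 2 * dist c m ^ 2 := by
    have h4 : dist a c ≤ dist a m + dist c m := by
      rw [dist_comm c m]
      exact dist_triangle a m c
    have h5 : 0 ≤ dist a c := dist_nonneg
    nlinarith [sq_nonneg (dist a m - dist c m)]
  rw [dist_comm b c, dist_comm e a]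
  linarith

/-- the squared distance minus the square of the difference of the parameters -/
noncomputable def U (c c' : ℝ → X) (s t : ℝ) : ℝ := dist (c s) (c' t) ^ 2 - (s - t) ^ 2

theorem U_right (hX : CN X) {c c' : ℝ → X} (hc' : Isometry c') (s t r : ℝ) :
    2 * U c c' s t ≤ U c c' s (t + r) + U c c' s (t - r) := by
  have h := line_cn hX hc' (c s) t r
  unfold U
  nlinarith

theorem U_left (hX : CN X) {c c' : ℝ → X} (hc : Isometry c) (s t r : ℝ) :
    2 * U c c' s t ≤ U c c' (s + r) t + U c c' (s - r) t := by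
  have h := line_cn hX hc (c' t) s r
  unfold U
  rw [dist_comm (c s), dist_comm (c (s + r)), dist_comm (c (s - r))]
  nlinarith

theorem U_four (hX : CN X) {c c' : ℝ → X} (hc : Isometry c) (hc' : Isometry c') (s t r : ℝ) :
    U c c' s (t + r) + U c c' (s + r) t ≤ U c c' (s + r) (t + r) + U c c' s t := by
  have h := four hX (c s) (c (s + r)) (c' (t + r)) (c' t)
  rw [dd hc, dd hc', dist_comm (c' t) (c s)] at h
  unfold U
  nlinarith

theorem U_diag (hX : CN X) {c c' : ℝ → X} (hc : Isometry c) (hc' : Isometry c') (s t r : ℝ) :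
    2 * U c c' s t ≤ U c c' (s + r) (t + r) + U c c' (s - r) (t - r) := by
  have h1 := U_four hX hc hc' s t r
  have h2 := U_four hX hc hc' (s - r) (t - r) r
  rw [sub_add_cancel, sub_add_cancel] at h2
  have h3 := U_right (c := c) hX hc' s t r
  have h4 := U_left (c' := c') hX hc s t r
  linarith

/-- a bounded function with nonnegative second differences is constant -/
theorem const_of_bdd (g : ℝ → ℝ) (M : ℝ) (hM : ∀ x, g x ≤ M)
    (h : ∀ x r, 2 * g x ≤ g (x + r) + g (x - r)) (x r : ℝ) : g (x + r) = g x := by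
  have hle : ∀ x r, g (x + r) ≤ g x := by
    intro x r
    by_contra hcon
    push Not at hcon
    set δ := g (x + r) - g x with hδ
    have hδ0 : 0 < δ := by linarith
    have hstep : ∀ k : ℕ, δ ≤ g (x + (k + 1) * r) - g (x + k * r) := by
      intro k
      induction k with
      | zero => simp [hδ]
      | succ k ih =>
        have h1 := h (x + (k + 1) * r) r
        have e1 : x + ((k : ℝ) + 1) * r + r = x + (((k + 1 : ℕ) : ℝ) + 1) * r := by push_cast; ring
        have e2 : x + ((k : ℝ) + 1) * r - r = x + (k : ℝ) * r := by ring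
        have e3 : x + ((k : ℝ) + 1) * r = x + ((k + 1 : ℕ) : ℝ) * r := by push_cast; ring
        rw [e1, e2] at h1
        rw [e3] at h1 ih
        linarith
    have hlow : ∀ k : ℕ, g x + k * δ ≤ g (x + k * r) := by
      intro k
      induction k with
      | zero => simp
      | succ k ih =>
        have h1 := hstep k
        push_cast
        linarith
    obtain ⟨k, hk⟩ := exists_nat_gt ((M - g x) / δ)
    rw [div_lt_iff₀ hδ0] at hk
    have h1 := hlow k
    have h2 := hM (x + k * r)
    linarith
  refine le_antisymm (hle x r) ?_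
  have := hle (x + r) (-r)
  rwa [add_neg_cancel_right] at this

/-- Jensen's functional equation -/
theorem affine (V : ℝ → ℝ) (hc : Continuous V) (h : ∀ x r, V (x + r) + V (x - r) = 2 * V x) :
    ∃ α : ℝ, ∀ x, V x = α * x + V 0 := by
  set W : ℝ → ℝ := fun x => V x - V 0 with hW
  have hWc : Continuous W := hc.sub continuous_const
  have hW0 : W 0 = 0 := by simp [hW]
  have hWJ : ∀ x r, W (x + r) + W (x - r) = 2 * W x := by
    intro x r
    simp only [hW]
    have := h x r
    linarith
  have hW2 : ∀ x, W (2 * x) = 2 * W x := by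
    intro x
    have := hWJ x x
    rw [sub_self, hW0, add_zero, ← two_mul] at this
    exact this
  have hadd : ∀ x y, W (x + y) = W x + W y := by
    intro x y
    have h1 := hW2 ((x + y) / 2)
    have h2 := hWJ ((x + y) / 2) ((x - y) / 2)
    have e1 : 2 * ((x + y) / 2) = x + y := by ring
    have e2 : (x + y) / 2 + (x - y) / 2 = x := by ring
    have e3 : (x + y) / 2 - (x - y) / 2 = y := by ring
    rw [e1] at h1
    rw [e2, e3] at h2
    linarith
  let f : ℝ →+ ℝ := { toFun := W, map_zero' := hW0, map_add' := hadd }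
  let F : ℝ →L[ℝ] ℝ := f.toRealLinearMap hWc
  refine ⟨W 1, fun x => ?_⟩
  have h1 : F x = x * F 1 := by
    have : F (x • (1 : ℝ)) = x • F 1 := map_smul F x 1
    rwa [smul_eq_mul, mul_one, smul_eq_mul] at this
  have h2 : W x = x * W 1 := h1
  simp only [hW] at h2 ⊢
  linarith

end Strip

open Strip in
theorem t_strip : C_STRIP.{u} := by
  intro X _ hX c c' hc hc' hpar
  obtain ⟨B, hB⟩ := hpar
  -- constant along the diagonals
  have hdiag : ∀ s t x, U c c' (s + x) (t + x) = U c c' s t := by
    intro s t x
    have h := const_of_bdd (fun x => U c c' (s + x) (t + x)) ((B + |t - s|) ^ 2) ?_ ?_ 0 x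
    · simp only [zero_add, add_zero] at h
      exact h
    · intro y
      simp only [U]
      have h1 : dist (c (s + y)) (c' (t + y)) ≤ B + |t - s| := by
        have h2 := dist_triangle (c (s + y)) (c' (s + y)) (c' (t + y))
        have h3 := hB (s + y)
        have h4 : dist (c' (s + y)) (c' (t + y)) = |t - s| := by
          rw [hc'.dist_eq, Real.dist_eq, ← abs_neg]
          congr 1
          ring
        linarith
      have h5 : dist (c (s + y)) (c' (t + y)) ^ 2 ≤ (B + |t - s|) ^ 2 :=
        pow_le_pow_left₀ dist_nonneg h1 2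
      have h6 := sq_nonneg (s + y - (t + y))
      linarith
    · intro y r
      have h1 := U_diag hX hc hc' (s + y) (t + y) r
      have e1 : s + y + r = s + (y + r) := by ring
      have e2 : t + y + r = t + (y + r) := by ring
      have e3 : s + y - r = s + (y - r) := by ring
      have e4 : t + y - r = t + (y - r) := by ring
      rw [e1, e2, e3, e4] at h1
      exact h1
  set V : ℝ → ℝ := fun y => U c c' 0 y with hV
  have hUV : ∀ s t, U c c' s t = V (t - s) := by
    intro s t
    have h := hdiag 0 (t - s) s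
    rw [zero_add, sub_add_cancel] at h
    exact h
  have hVJ : ∀ x r, V (x + r) + V (x - r) = 2 * V x := by
    intro x r
    apply le_antisymm
    · have h1 := U_four hX hc hc' 0 x r
      rw [hUV 0 (x + r), hUV (0 + r) x, hUV (0 + r) (x + r), hUV 0 x] at h1
      have e1 : x + r - 0 = x + r := by ring
      have e2 : x - (0 + r) = x - r := by ring
      have e3 : x + r - (0 + r) = x := by ring
      have e4 : x - 0 = x := by ring
      rw [e1, e2, e3, e4] at h1
      linarith
    · exact U_right (c := c) hX hc' 0 x r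
  have hVc : Continuous V := by
    have h1 : Continuous fun y => dist (c 0) (c' y) := continuous_const.dist hc'.continuous
    exact (h1.pow 2).sub ((continuous_const.sub continuous_id).pow 2)
  obtain ⟨α, hα⟩ := affine V hVc hVJ
  refine ⟨-α / 2, fun s t => ?_⟩
  have key : ∀ s t, dist (c s) (c' t) ^ 2 = (s - t) ^ 2 + (α * (t - s) + V 0) := by
    intro s t
    have h1 := hUV s t
    rw [hα (t - s)] at h1
    unfold U at h1
    linarith
  show dist (c s) (c' (t + -α / 2)) ^ 2 = dist (c 0) (c' (0 + -α / 2)) ^ 2 + (t - s) ^ 2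
  rw [key, key]
  ring

end Pool.Agent.TH60.FP
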