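import Pool.Agent.TH60.FP.Defs

set_option autoImplicit false

universe u v

namespace Pool.Agent.TH60.FP

namespace Trans

/-- the side of a thin right triangle -/
lemma side {x D s : ℝ} (hs : 0 < s) (h : x ^ 2 = D ^ 2 + s ^ 2) :
    2 * s * x ≤ 2 * s ^ 2 + D ^ 2 := by
  nlinarith [sq_nonneg (x - s)]

lemma nonpos_of {o C : ℝ} (hC : 0 ≤ C) (h : ∀ s : ℝ, 0 < s → 2 * s * o ≤ C) : o ≤ 0 := by
  by_contra hcon
  push Not at hcon
  have h1 := h ((C + 1) / o) (by positivity)
  have h2 : 2 * ((C + 1) / o) * o = 2 * (C + 1) := by field_simp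
  rw [h2] at h1
  linarith

end Trans

open Pool.Agent.TH60.FP.Trans in
theorem t_trans (h : C_STRIP.{u}) : C_TRANS.{u} := by
  intro X _ hX a b c ha hb hc hab hac
  have h1 : ∀ t, dist (a t) (b t) = dist (a 0) (b 0) := by
    intro t
    have h2 := hab t t
    rw [sub_self, zero_pow two_ne_zero, add_zero] at h2
    exact (pow_left_inj₀ dist_nonneg dist_nonneg two_ne_zero).1 h2
  have h2 : ∀ t, dist (a t) (c t) = dist (a 0) (c 0) := by
    intro t
    have h2 := hac t t
    rw [sub_self, zero_pow two_ne_zero, add_zero] at h2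
    exact (pow_left_inj₀ dist_nonneg dist_nonneg two_ne_zero).1 h2
  have hpar : Par b c := by
    refine ⟨dist (a 0) (b 0) + dist (a 0) (c 0), fun t => ?_⟩
    rw [← h1 t, ← h2 t, dist_comm (a t) (b t)]
    exact dist_triangle _ _ _
  obtain ⟨o, ho⟩ := h X hX b c hb hc hpar
  have hC : 0 ≤ dist (a 0) (b 0) ^ 2 + dist (b 0) (c (0 + o)) ^ 2 + dist (a 0) (c 0) ^ 2 := by
    positivity
  have ho0 : o = 0 := by
    apply le_antisymm
    · refine nonpos_of hC fun s hs => ?_
      have e1 : dist (a 0) (b s) ^ 2 = dist (a 0) (b 0) ^ 2 + s ^ 2 := by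
        rw [hab 0 s]
        ring
      have e2 : dist (b s) (c (2 * s + o)) ^ 2 = dist (b 0) (c (0 + o)) ^ 2 + s ^ 2 := by
        have := ho s (2 * s)
        simp only at this
        rw [this]
        ring
      have e3 : dist (a (3 * s + o)) (c (2 * s + o)) ^ 2 = dist (a 0) (c 0) ^ 2 + s ^ 2 := by
        rw [hac (3 * s + o) (2 * s + o)]
        ring
      have e4 : 3 * s + o ≤ dist (a 0) (a (3 * s + o)) := by
        rw [ha.dist_eq, Real.dist_eq]
        have := neg_abs_le (0 - (3 * s + o))
        linarith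
      have e5 : dist (a 0) (a (3 * s + o)) ≤ dist (a 0) (b s) + dist (b s) (c (2 * s + o)) +
          dist (a (3 * s + o)) (c (2 * s + o)) := by
        have f1 := dist_triangle (a 0) (b s) (a (3 * s + o))
        have f2 := dist_triangle (b s) (c (2 * s + o)) (a (3 * s + o))
        rw [dist_comm (c (2 * s + o)) (a (3 * s + o))] at f2
        linarith
      have g1 := side hs e1
      have g2 := side hs e2
      have g3 := side hs e3
      have g4 : 2 * s * (3 * s + o) ≤ 2 * s * (dist (a 0) (b s) + dist (b s) (c (2 * s + o)) +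
          dist (a (3 * s + o)) (c (2 * s + o))) :=
        mul_le_mul_of_nonneg_left (e4.trans e5) (by positivity)
      nlinarith
    · have h3 : -o ≤ 0 := by
        refine nonpos_of hC fun s hs => ?_
        have e1 : dist (a 0) (b (-s)) ^ 2 = dist (a 0) (b 0) ^ 2 + s ^ 2 := by
          rw [hab 0 (-s)]
          ring
        have e2 : dist (b (-s)) (c (-(2 * s) + o)) ^ 2 =
            dist (b 0) (c (0 + o)) ^ 2 + s ^ 2 := by
          have := ho (-s) (-(2 * s))
          simp only at this
          rw [this]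
          ring
        have e3 : dist (a (-(3 * s) + o)) (c (-(2 * s) + o)) ^ 2 =
            dist (a 0) (c 0) ^ 2 + s ^ 2 := by
          rw [hac (-(3 * s) + o) (-(2 * s) + o)]
          ring
        have e4 : 3 * s - o ≤ dist (a 0) (a (-(3 * s) + o)) := by
          rw [ha.dist_eq, Real.dist_eq]
          have := le_abs_self (0 - (-(3 * s) + o))
          linarith
        have e5 : dist (a 0) (a (-(3 * s) + o)) ≤ dist (a 0) (b (-s)) +
            dist (b (-s)) (c (-(2 * s) + o)) + dist (a (-(3 * s) + o)) (c (-(2 * s) + o)) := by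
          have f1 := dist_triangle (a 0) (b (-s)) (a (-(3 * s) + o))
          have f2 := dist_triangle (b (-s)) (c (-(2 * s) + o)) (a (-(3 * s) + o))
          rw [dist_comm (c (-(2 * s) + o)) (a (-(3 * s) + o))] at f2
          linarith
        have g1 := side hs e1
        have g2 := side hs e2
        have g3 := side hs e3
        have g4 : 2 * s * (3 * s - o) ≤ 2 * s * (dist (a 0) (b (-s)) +
            dist (b (-s)) (c (-(2 * s) + o)) + dist (a (-(3 * s) + o)) (c (-(2 * s) + o))) :=
          mul_le_mul_of_nonneg_left (e4.trans e5) (by positivity)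
        nlinarith
      linarith
  subst ho0
  intro s t
  have h3 := ho s t
  simp only [add_zero] at h3
  exact h3

end Pool.Agent.TH60.FP
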