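import Pool.Agent.TH60.FP.Defs

/-!
# Project FP: closing of a flat with one period
-/

set_option autoImplicit false

universe u v w

namespace Pool.Agent.TH60.FP

namespace Close

variable {X : Type u} [MetricSpace X] {G : Type v} [Group G] [MulAction G X]

lemma Fl.isom {F : ℝ → ℝ → X} (h : Fl F) (y : ℝ) : Isometry (fun t => F t y) := by
  refine Isometry.of_dist_eq fun s t => ?_
  have h1 := h s y t y
  rw [sub_self, zero_pow two_ne_zero, add_zero] at h1
  rw [Real.dist_eq]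
  have h2 : dist (F s y) (F t y) ^ 2 = |s - t| ^ 2 := by rw [h1, sq_abs]
  exact (sq_eq_sq₀ dist_nonneg (abs_nonneg _)).1 h2

lemma Fl.vert {F : ℝ → ℝ → X} (h : Fl F) (x y y' : ℝ) : dist (F x y) (F x y') = |y - y'| := by
  have h1 := h x y x y'
  rw [sub_self, zero_pow two_ne_zero, zero_add] at h1
  have h2 : dist (F x y) (F x y') ^ 2 = |y - y'| ^ 2 := by rw [h1, sq_abs]
  exact (sq_eq_sq₀ dist_nonneg (abs_nonneg _)).1 h2

lemma Par.symm' {c c' : ℝ → X} (h : Par c c') : Par c' c := by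
  obtain ⟨B, hB⟩ := h
  exact ⟨B, fun t => by rw [dist_comm]; exact hB t⟩

lemma Par.trans' {a b c : ℝ → X} (h : Par a b) (h' : Par b c) : Par a c := by
  obtain ⟨B, hB⟩ := h
  obtain ⟨B', hB'⟩ := h'
  exact ⟨B + B', fun t => (dist_triangle _ _ _).trans (add_le_add (hB t) (hB' t))⟩

lemma Par.refl' (c : ℝ → X) : Par c c := ⟨0, fun t => by rw [dist_self]⟩

lemma Fl.par {F : ℝ → ℝ → X} (h : Fl F) (y y' : ℝ) : Par (fun t => F t y) (fun t => F t y') :=
  ⟨|y - y'|, fun t => (Fl.vert h t y y').le⟩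

lemma par_smul [IsIsometricSMul G X] (k : G) {c c' : ℝ → X} (h : Par c c') :
    Par (fun t => k • c t) (fun t => k • c' t) := by
  obtain ⟨B, hB⟩ := h
  exact ⟨B, fun t => by rw [dist_smul]; exact hB t⟩

lemma isom_smul [IsIsometricSMul G X] (k : G) {c : ℝ → X} (h : Isometry c) :
    Isometry (fun t => k • c t) := (isometry_smul X k).comp h

end Close

open Close in
theorem t_park : X_PARK.{u, v} := by
  intro X _ G _ _ F g τ B hS k hk c hc
  have := hS.isom
  refine Par.trans' ?_ (par_smul k hc)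
  have hl := Fl.isom hS.flat 0
  refine ⟨2 * B + (2 * τ + dist (F 0 0) (k • F 0 0)), fun t => ?_⟩
  show dist (F t 0) (k • F t 0) ≤ _
  set i : ℤ := ⌊t / τ⌋ with hi
  set t' : ℝ := t - i * τ with ht'
  have hτ := hS.pos
  have h0 : 0 ≤ t' := by
    have : (i : ℝ) ≤ t / τ := Int.floor_le _
    rw [le_div_iff₀ hτ] at this
    linarith
  have h1 : t' ≤ τ := by
    have : t / τ < i + 1 := Int.lt_floor_add_one _
    rw [div_lt_iff₀ hτ] at this
    linarith
  have ht : t = t' + i * τ := by rw [ht']; ring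
  have e1 : dist (g ^ i • F t' 0) (F t 0) ≤ B := by
    have := hS.per i t' 0
    rwa [← ht] at this
  have e2 : dist (k • g ^ i • F t' 0) (k • F t 0) ≤ B := by
    rw [dist_smul]; exact e1
  have e3 : k • g ^ i • F t' 0 = g ^ i • k • F t' 0 := by
    rw [← mul_smul, ← mul_smul, (hk.zpow_left i).eq]
  have e4 : dist (g ^ i • F t' 0) (g ^ i • k • F t' 0) ≤ 2 * τ + dist (F 0 0) (k • F 0 0) := by
    rw [dist_smul]
    have f1 : dist (F t' 0) (F 0 0) ≤ τ := by
      have := hl.dist_eq t' 0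
      rw [Real.dist_eq, sub_zero, abs_of_nonneg h0] at this
      rw [this]
      exact h1
    have f2 : dist (k • F 0 0) (k • F t' 0) ≤ τ := by
      rw [dist_smul, dist_comm]; exact f1
    calc dist (F t' 0) (k • F t' 0) ≤ dist (F t' 0) (F 0 0) + dist (F 0 0) (k • F 0 0) +
          dist (k • F 0 0) (k • F t' 0) := dist_triangle4 _ _ _ _
      _ ≤ _ := by linarith
  rw [e3] at e2
  calc dist (F t 0) (k • F t 0) ≤ dist (F t 0) (g ^ i • F t' 0) +
        dist (g ^ i • F t' 0) (g ^ i • k • F t' 0) + dist (g ^ i • k • F t' 0) (k • F t 0) :=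
        dist_triangle4 _ _ _ _
    _ ≤ _ := by rw [dist_comm (F t 0)]; linarith


namespace Close

variable {X : Type u} [MetricSpace X] {G : Type v} [Group G] [MulAction G X]

/-- the homomorphism `(i, j) ↦ g ^ i k ^ j` -/
def hom2 {g k : G} (h : Commute g k) : Multiplicative (ℤ × ℤ) →* G where
  toFun a := g ^ (Multiplicative.toAdd a).1 * k ^ (Multiplicative.toAdd a).2
  map_one' := by simp
  map_mul' a b := by
    have h1 : Commute (k ^ (Multiplicative.toAdd a).2) (g ^ (Multiplicative.toAdd b).1) :=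
      (h.zpow_zpow _ _).symm
    rw [toAdd_mul, Prod.fst_add, Prod.snd_add, zpow_add, zpow_add, mul_assoc, mul_assoc,
      ← mul_assoc (k ^ _) (g ^ _), h1.eq, mul_assoc]

lemma hom2_apply {g k : G} (h : Commute g k) (i j : ℤ) :
    hom2 h (Multiplicative.ofAdd (i, j)) = g ^ i * k ^ j := rfl

lemma DD_le (c c' : ℝ → X) (t : ℝ) : DD c c' ≤ dist (c 0) (c' t) :=
  Metric.infDist_le_dist_of_mem (Set.mem_range_self t)

lemma DD_smul [IsIsometricSMul G X] (a : G) (c c' : ℝ → X) :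
    DD (fun t => a • c t) (fun t => a • c' t) = DD c c' := by
  unfold DD
  have h : Set.range (fun t => a • c' t) = (fun x : X => a • x) '' Set.range c' := by
    rw [← Set.range_comp]
    rfl
  rw [h]
  exact Metric.infDist_image (isometry_smul X a)

lemma g_inf {F : ℝ → ℝ → X} {g : G} {τ B : ℝ} (hS : Setup X G F g τ B) {i : ℤ}
    (hi : g ^ i = 1) : i = 0 := by
  by_contra hne
  have hτ := hS.pos
  have h1 : ∀ n : ℕ, (n : ℝ) * τ ≤ B := by
    intro n
    have h2 := hS.per (i * n) 0 0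
    rw [zpow_mul, hi, one_zpow, one_smul] at h2
    have h3 := (Fl.isom hS.flat 0).dist_eq 0 (0 + ((i * n : ℤ) : ℝ) * τ)
    rw [h3, Real.dist_eq] at h2
    have h4 : (1 : ℝ) ≤ |(i : ℝ)| := by
      rw [← Int.cast_abs]
      exact_mod_cast Int.one_le_abs hne
    have h5 : |0 - (0 + ((i * n : ℤ) : ℝ) * τ)| = |(i : ℝ)| * (n * τ) := by
      push_cast
      rw [zero_add, zero_sub, abs_neg, mul_assoc, abs_mul, abs_of_nonneg (a := (n : ℝ) * τ)
        (by positivity)]
    rw [h5] at h2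
    have h6 : 0 ≤ (n : ℝ) * τ := by positivity
    nlinarith
  obtain ⟨n, hn⟩ := exists_nat_gt (B / τ)
  rw [div_lt_iff₀ hτ] at hn
  linarith [h1 n]

lemma ex_pow {F : ℝ → ℝ → X} {g : G} {τ B : ℝ} (hS : Setup X G F g τ B)
    (hno : ¬ ∃ φ : Multiplicative (ℤ × ℤ) →* G, Function.Injective φ) {k : G}
    (hk : Commute g k) : ∃ N : ℕ, 0 < N ∧ k ^ N ∈ Subgroup.zpowers g := by
  have h1 : ¬ Function.Injective (hom2 hk) := fun h => hno ⟨_, h⟩
  rw [injective_iff_map_eq_one] at h1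
  push Not at h1
  obtain ⟨a, ha, ha1⟩ := h1
  obtain ⟨⟨i, j⟩, rfl⟩ : ∃ b, Multiplicative.ofAdd b = a := ⟨Multiplicative.toAdd a, rfl⟩
  rw [hom2_apply] at ha
  by_cases hj : j = 0
  · subst hj
    rw [zpow_zero, mul_one] at ha
    have := g_inf hS ha
    subst this
    exact absurd rfl ha1
  · have h2 : k ^ j = g ^ (-i) := by
      rw [zpow_neg]
      exact (inv_eq_of_mul_eq_one_right ha).symm
    refine ⟨j.natAbs, Int.natAbs_pos.2 hj, ?_⟩
    rcases Int.natAbs_eq j with h | h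
    · refine ⟨-i, ?_⟩
      show g ^ (-i) = k ^ j.natAbs
      rw [← zpow_natCast, ← h, h2]
    · refine ⟨i, ?_⟩
      show g ^ i = k ^ j.natAbs
      have h3 : ((j.natAbs : ℕ) : ℤ) = -j := by omega
      rw [← zpow_natCast, h3, zpow_neg, h2, zpow_neg, inv_inv]

end Close

open Close in
theorem t_close (hDD : C_DD.{u}) (hCEN : Y_CEN.{u, 0}) (hSEL : X_SEL.{u, v})
    (hBND : X_BND.{u, v}) : X_CLOSE.{u, v} := by
  intro X _ G _ _ F g τ B hS
  have hPARK := t_park.{u, v} X G F g τ B hS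
  have := hS.isom
  obtain ⟨d1, d2, d3, d4, d5⟩ := hDD X hS.cn
  obtain ⟨N0, hN0⟩ := hBND X G F g τ B hS
  by_contra hno
  have hB0 : 0 ≤ B := dist_nonneg.trans (hS.per 0 0 0)
  have hτ := hS.pos
  set C : ℝ := B + 2 * N0 + 4 with hC
  have hC4 : 4 ≤ C := by
    have : (0 : ℝ) ≤ N0 := Nat.cast_nonneg _
    linarith
  have hC0 : 0 < C := by linarith
  set ε : ℝ := 1 / (8 * C) with hε
  have hε0 : 0 < ε := by positivity
  have hε1 : ε ≤ 1 / 32 := by
    rw [hε]
    apply one_div_le_one_div_of_le <;> linarith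
  have hεC : 8 * ε * C = 1 := by rw [hε]; field_simp
  obtain ⟨n, m, k, hnm, hk, hd1, hd2⟩ := hSEL X G F g τ B hS ε hε0
  have hex := ex_pow hS hno hk
  classical
  obtain ⟨hNpos, hNpow⟩ := Nat.find_spec hex
  set N := Nat.find hex with hN
  have hNN0 : N ≤ N0 := by
    refine hN0 k hk N hNpos hNpow fun j hj0 hjN hmem => ?_
    exact Nat.find_min hex hjN ⟨hj0, hmem⟩
  obtain ⟨M, hM⟩ := hNpow
  have hM' : g ^ M = k ^ N := hM
  -- lines
  set l : ℝ → ℝ → X := fun y t => F t y with hl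
  have hli : ∀ y, Isometry (l y) := fun y => Fl.isom hS.flat y
  have hlp : ∀ y y', Par (l y) (l y') := fun y y' => Fl.par hS.flat y y'
  set P : (ℝ → X) → Prop := fun c => Isometry c ∧ Par (l 0) c with hP
  have hPl : ∀ y, P (l y) := fun y => ⟨hli y, hlp 0 y⟩
  have hpp : ∀ c c', P c → P c' → Par c c' := fun c c' h h' => Par.trans' (Par.symm' h.2) h'.2
  have hPa : ∀ (a : G), Commute g a → ∀ c, P c → P (fun t => a • c t) := fun a ha c hc =>
    ⟨isom_smul a hc.1, hPARK a ha c hc.2⟩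
  have dtri : ∀ x y z, P x → P y → P z → DD x z ≤ DD x y + DD y z := fun x y z hx hy hz =>
    d3 x y z hx.1 hy.1 hz.1 (hpp x y hx hy) (hpp y z hy hz)
  have dsym : ∀ x y, P x → P y → DD x y = DD y x := fun x y hx hy =>
    d2 x y hx.1 hy.1 (hpp x y hx hy)
  have d0 : ∀ x y : ℝ → X, 0 ≤ DD x y := fun x y => Metric.infDist_nonneg
  set T : ℝ := (m : ℝ) - n with hT
  have hT1 : 1 ≤ T := by
    have : (n : ℝ) + 1 ≤ m := by exact_mod_cast hnm
    linarith
  -- the orbit of `l n` is bounded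
  have o1 : ∀ i : ℤ, DD (l n) (fun t => g ^ i • l n t) ≤ B := by
    intro i
    refine (DD_le _ _ (-(i * τ))).trans ?_
    have := hS.per i (-(i * τ)) n
    rw [neg_add_cancel] at this
    rw [dist_comm]
    exact this
  have hkn : DD (l n) (fun t => k • l n t) ≤ T + ε := by
    refine (dtri _ (l m) _ (hPl _) (hPl _) (hPa k hk _ (hPl _))).trans (add_le_add ?_ ?_)
    · refine (DD_le _ _ 0).trans ?_
      show dist (F 0 n) (F 0 m) ≤ T
      rw [Fl.vert hS.flat, hT, abs_sub_comm, abs_of_nonneg (by linarith)]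
    · refine (DD_le _ _ 0).trans ?_
      rw [dist_comm]
      exact hd1
  have hkr : ∀ r : ℕ, DD (l n) (fun t => k ^ r • l n t) ≤ r * (T + ε) := by
    intro r
    induction r with
    | zero =>
      have : DD (l n) (l n) ≤ 0 := (DD_le _ _ 0).trans (by rw [dist_self])
      simpa using this
    | succ r ih =>
      have hc1 : Commute g (k ^ r) := hk.pow_right r
      have h1 := dtri (l n) (fun t => k ^ r • l n t) (fun t => k ^ (r + 1) • l n t) (hPl _)
        (hPa _ hc1 _ (hPl _)) (hPa _ (hk.pow_right (r + 1)) _ (hPl _))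
      have h2 : DD (fun t => k ^ r • l n t) (fun t => k ^ (r + 1) • l n t) =
          DD (l n) (fun t => k • l n t) := by
        rw [← DD_smul (k ^ r) (l n) (fun t => k • l n t)]
        congr 1
        funext t
        rw [pow_succ, mul_smul]
      rw [h2] at h1
      push_cast
      linarith
  set R : ℝ := B + N0 * (T + ε) with hR
  let act : MulAction (Multiplicative (ℤ × ℤ)) (ℝ → X) := MulAction.compHom (ℝ → X) (hom2 hk)
  have hact : ∀ (i j : ℤ) (c : ℝ → X), (Multiplicative.ofAdd (i, j) : Multiplicative (ℤ × ℤ)) • c =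
      fun t => (g ^ i * k ^ j) • c t := fun i j c => rfl
  have hcomm : ∀ i j : ℤ, Commute g (g ^ i * k ^ j) := fun i j =>
    ((Commute.refl g).zpow_right i).mul_right (hk.zpow_right j)
  have horb : ∀ a : Multiplicative (ℤ × ℤ), DD (l n) (a • l n) ≤ R := by
    intro a
    obtain ⟨⟨i, j⟩, rfl⟩ : ∃ b, Multiplicative.ofAdd b = a := ⟨Multiplicative.toAdd a, rfl⟩
    rw [hact]
    have hNz : (0 : ℤ) < N := by exact_mod_cast hNpos
    set r : ℕ := (j % N).toNat with hr
    have hr0 : (r : ℤ) = j % N := Int.toNat_of_nonneg (Int.emod_nonneg _ hNz.ne')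
    have hrN : r < N := by
      have := Int.emod_lt_of_pos j hNz
      omega
    have hj : k ^ j = g ^ (M * (j / N)) * k ^ r := by
      have h1 : j = N * (j / N) + r := by rw [hr0]; exact (Int.mul_ediv_add_emod j N).symm
      conv_lhs => rw [h1]
      rw [zpow_add, zpow_mul, zpow_natCast, zpow_natCast, ← hM', ← zpow_mul]
    have h2 : g ^ i * k ^ j = g ^ (i + M * (j / N)) * k ^ r := by
      rw [hj, ← mul_assoc, ← zpow_add]
    rw [h2]
    set i' : ℤ := i + M * (j / N) with hi'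
    have hcg : Commute g (g ^ i') := (Commute.refl g).zpow_right i'
    have h3 := dtri (l n) (fun t => g ^ i' • l n t) (fun t => (g ^ i' * k ^ r) • l n t) (hPl _)
      (hPa _ hcg _ (hPl _)) (hPa _ (hcg.mul_right (hk.pow_right r)) _ (hPl _))
    have h4 : DD (fun t => g ^ i' • l n t) (fun t => (g ^ i' * k ^ r) • l n t) =
        DD (l n) (fun t => k ^ r • l n t) := by
      rw [← DD_smul (g ^ i') (l n) (fun t => k ^ r • l n t)]
      congr 1
      funext t
      rw [mul_smul]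
    rw [h4] at h3
    have h5 : (r : ℝ) * (T + ε) ≤ N0 * (T + ε) := by
      apply mul_le_mul_of_nonneg_right _ (by linarith)
      exact_mod_cast (hrN.le.trans hNN0)
    linarith [o1 i', hkr r]
  obtain ⟨c, hc, hce, hcR⟩ := hCEN (ℝ → X) P DD (Multiplicative (ℤ × ℤ))
    (by
      intro a x hx
      obtain ⟨⟨i, j⟩, rfl⟩ : ∃ b, Multiplicative.ofAdd b = a := ⟨Multiplicative.toAdd a, rfl⟩
      rw [hact]
      exact hPa _ (hcomm i j) _ hx)
    (fun x y _ _ => d0 x y) dsym dtri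
    (by
      intro a x y _ _
      obtain ⟨⟨i, j⟩, rfl⟩ : ∃ b, Multiplicative.ofAdd b = a := ⟨Multiplicative.toAdd a, rfl⟩
      rw [hact, hact]
      exact DD_smul _ x y)
    (by
      intro x y hx hy
      obtain ⟨m', h1, h2, h3⟩ := d4 x y hx.1 hy.1 (hpp x y hx hy)
      exact ⟨m', ⟨h1, Par.trans' hx.2 h2⟩, fun z hz => h3 z hz.1 (hpp x z hx hz)⟩)
    (l n) R ε (hPl _) hε0 horb
  have hck : DD c (fun t => k • c t) ≤ ε := by
    have := hce (Multiplicative.ofAdd ((0 : ℤ), (1 : ℤ)))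
    rw [hact] at this
    simpa using this
  have hkc : P (fun t => k • c t) := hPa k hk _ hc
  -- comparison
  have comp : ∀ y y' : ℝ, dist (k • F 0 y) (F 0 y') ≤ ε →
      DD c (l y') ≤ DD c (l y) + 2 * ε ∧ DD c (l y) ≤ DD c (l y') + 2 * ε := by
    intro y y' hd
    have hky : P (fun t => k • l y t) := hPa k hk _ (hPl _)
    have h1 : DD (fun t => k • l y t) (l y') ≤ ε := (DD_le _ _ 0).trans hd
    have h2 : DD (fun t => k • c t) (fun t => k • l y t) = DD c (l y) := DD_smul k c (l y)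
    have h3 := dtri c _ (l y') hc hkc (hPl _)
    have h4 := dtri (fun t => k • c t) _ (l y') hkc hky (hPl _)
    have h5 := dtri (fun t => k • c t) _ (fun t => k • l y t) hkc hc hky
    have h6 := dtri c _ (fun t => k • l y t) hc (hPl y') hky
    rw [dsym _ _ (hPl y') hky] at h6
    rw [dsym _ _ hkc hc] at h5
    constructor <;> linarith
  obtain ⟨a1, a2⟩ := comp n m hd1
  obtain ⟨b1, b2⟩ := comp ((n : ℝ) - 1) ((m : ℝ) - 1) hd2
  set f : ℝ → ℝ := fun y => DD c (l y) with hf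
  have hf0 : ∀ y, 0 ≤ f y := fun y => d0 _ _
  have hfn : f n ≤ R + ε := hcR
  have hstep : ∀ y : ℝ, f (y - 1) ≤ f y + 1 := by
    intro y
    refine (dtri c (l y) (l (y - 1)) hc (hPl _) (hPl _)).trans (add_le_add le_rfl ?_)
    refine (DD_le _ _ 0).trans ?_
    show dist (F 0 y) (F 0 (y - 1)) ≤ 1
    rw [Fl.vert hS.flat]
    simp
  have hconv : ∀ y : ℝ, f y ^ 2 ≤ (f (y - 1) ^ 2 + f (y + 1) ^ 2) / 2 - 1 := by
    intro y
    exact d5 F hS.flat c hc.1 y (hpp (l y) c (hPl y) hc)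
  have hdiff : ∀ j : ℕ, f (n + j) ^ 2 - f (n + j - 1) ^ 2 ≥ f n ^ 2 - f (n - 1) ^ 2 + 2 * j := by
    intro j
    induction j with
    | zero => simp
    | succ j ih =>
      have h1 := hconv ((n : ℝ) + j)
      push_cast
      have e1 : (n : ℝ) + (j + 1) - 1 = n + j := by ring
      have e2 : (n : ℝ) + (j + 1) = n + j + 1 := by ring
      rw [e1, e2]
      nlinarith
  obtain ⟨j, hj⟩ : ∃ j : ℕ, m = n + j := ⟨m - n, by omega⟩
  have hjT : (j : ℝ) = T := by rw [hT, hj]; push_cast; ring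
  have hmain := hdiff j
  have e3 : (n : ℝ) + j = m := by rw [hj]; push_cast; ring
  rw [e3, hjT] at hmain
  have hN0' : (0 : ℝ) ≤ N0 := Nat.cast_nonneg _
  have hR0 : 0 ≤ R := by
    have : 0 ≤ (N0 : ℝ) * (T + ε) := by positivity
    linarith
  -- the estimate
  set Mx : ℝ := R + 3 * ε + 1 with hMx
  have g1 : f n ≤ Mx := by linarith
  have g2 : f m ≤ Mx := by linarith
  have g3 : f ((n : ℝ) - 1) ≤ Mx := by linarith [hstep n]
  have g4 : f ((m : ℝ) - 1) ≤ Mx := by linarith [hstep m]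
  have s1 : f m ^ 2 - f n ^ 2 ≤ 4 * ε * Mx := by
    have : f m ^ 2 - f n ^ 2 = (f m - f n) * (f m + f n) := by ring
    rw [this]
    have k1 : f m - f n ≤ 2 * ε := by linarith
    have k2 : 0 ≤ f m + f n := add_nonneg (hf0 _) (hf0 _)
    calc (f m - f n) * (f m + f n) ≤ 2 * ε * (f m + f n) := mul_le_mul_of_nonneg_right k1 k2
      _ ≤ 2 * ε * (2 * Mx) := by
        apply mul_le_mul_of_nonneg_left _ (by positivity)
        linarith
      _ = 4 * ε * Mx := by ring
  have s2 : f ((n : ℝ) - 1) ^ 2 - f ((m : ℝ) - 1) ^ 2 ≤ 4 * ε * Mx := by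
    have : f ((n : ℝ) - 1) ^ 2 - f ((m : ℝ) - 1) ^ 2 =
      (f ((n : ℝ) - 1) - f ((m : ℝ) - 1)) * (f ((n : ℝ) - 1) + f ((m : ℝ) - 1)) := by ring
    rw [this]
    have k1 : f ((n : ℝ) - 1) - f ((m : ℝ) - 1) ≤ 2 * ε := by linarith
    have k2 : 0 ≤ f ((n : ℝ) - 1) + f ((m : ℝ) - 1) := add_nonneg (hf0 _) (hf0 _)
    calc (f ((n : ℝ) - 1) - f ((m : ℝ) - 1)) * (f ((n : ℝ) - 1) + f ((m : ℝ) - 1))
        ≤ 2 * ε * (f ((n : ℝ) - 1) + f ((m : ℝ) - 1)) := mul_le_mul_of_nonneg_right k1 k2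
      _ ≤ 2 * ε * (2 * Mx) := by
        apply mul_le_mul_of_nonneg_left _ (by positivity)
        linarith
      _ = 4 * ε * Mx := by ring
  have t1 : 2 * T ≤ 8 * ε * Mx := by linarith
  have t2 : Mx ≤ T * C := by
    have h1 : B ≤ T * B := by nlinarith
    have h2 : (N0 : ℝ) * (T + ε) ≤ N0 * (2 * T) := by
      apply mul_le_mul_of_nonneg_left _ hN0'
      linarith
    have h3 : 3 * ε + 1 ≤ 4 * T := by linarith
    have h4 : T * C = T * B + N0 * (2 * T) + 4 * T := by rw [hC]; ring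
    rw [hMx, hR, h4]
    linarith
  have t3 : 8 * ε * Mx ≤ T := by
    calc 8 * ε * Mx ≤ 8 * ε * (T * C) := mul_le_mul_of_nonneg_left t2 (by positivity)
      _ = T * (8 * ε * C) := by ring
      _ = T := by rw [hεC, mul_one]
  linarith

end Pool.Agent.TH60.FP
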