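import Mathlib

/-!
# Project FP (owner helper60): complexity of flats in CAT(0) groups

`G` acts geometrically on the proper CAT(0) space `X` (CAT(0) = the inequality of Bruhat and Tits
`CN X` for a proper space), `f` is a flat.  If the discretised flat has fewer than `(q + 1) ^ 2`
patterns of radius `12 q` up to `G`, then `G` contains `ℤ²`.

Part 1 (`N_...`): a configuration on `ℤ²` with few patterns has a period.
Part 2 (`C_...`): parallel lines in a CAT(0) space.  Part 3 (`X_...`): closing of a flat with one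
period.

Every `def ..._... : Prop` is the statement of one part.
-/

set_option autoImplicit false

universe u v w

namespace Pool.Agent.TH60.FP

/-! ## Part 1: configurations on `ℤ²` -/

/-- `w` is in the box of radius `r` around `z` -/
def Bx (z : ℤ × ℤ) (r : ℤ) (w : ℤ × ℤ) : Prop :=
  -r ≤ w.1 - z.1 ∧ w.1 - z.1 ≤ r ∧ -r ≤ w.2 - z.2 ∧ w.2 - z.2 ≤ r

/-- `v` is a period of the pattern of `c` in the box of radius `r` around `z` -/
def Pe {S : Type u} (c : ℤ × ℤ → S) (z : ℤ × ℤ) (r : ℤ) (v : ℤ × ℤ) : Prop :=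
  ∀ w, Bx z r w → Bx z r (w + v) → c w = c (w + v)

/-- EXT -/
def N_EXT : Prop := ∀ (S : Type u) (c : ℤ × ℤ → S) (z : ℤ × ℤ) (r q : ℤ) (v1 v2 x : ℤ × ℤ),
  0 < q → 3 * q ≤ r → Bx 0 q v1 → Bx 0 q v2 → Bx 0 q x → v1.1 * v2.2 ≠ v1.2 * v2.1 →
  Pe c z (r + 2 * q) v1 → Pe c z (r + 2 * q) v2 → Pe c z (3 * q) x → Pe c z r x

/-- LINE -/
def N_LINE : Prop := ∀ (S : Type u) (s : ℤ → S) (K W : ℤ), K ≤ W →
  (∀ i, ∃ k, 0 < k ∧ k ≤ K ∧ ∀ j, i - W ≤ j → j + k ≤ i + W → s j = s (j + k)) →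
  ∃ k, 0 < k ∧ k ≤ K ∧ ∀ j, s j = s (j + k)

/-- MAIN -/
def N_MAIN : Prop := ∀ (S : Type u) (c : ℤ × ℤ → S) (q : ℤ), 0 < q →
  (∀ z, ∃ v, v ≠ 0 ∧ Bx 0 q v ∧ Pe c z (10 * q) v) → ∃ v, v ≠ 0 ∧ ∀ w, c w = c (w + v)

/-- PER -/
def N_PER : Prop := ∀ (S : Type u) (c : ℤ × ℤ → S) (q : ℕ), 0 < q →
  (Set.range (fun z : ℤ × ℤ => fun x : {x : ℤ × ℤ // Bx 0 (11 * q) x} =>
    c (z + x.1))).encard < ((q + 1) ^ 2 : ℕ) →
  ∃ v, v ≠ 0 ∧ ∀ w, c w = c (w + v)

/-! ## Part 2: lines -/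

/-- the inequality of Bruhat and Tits; for complete spaces equivalent to CAT(0) -/
def CN (X : Type u) [MetricSpace X] : Prop := ∀ p q : X, ∃ m : X, ∀ x : X,
  dist x m ^ 2 ≤ (dist x p ^ 2 + dist x q ^ 2) / 2 - dist p q ^ 2 / 4

/-- parallel lines -/
def Par {X : Type u} [MetricSpace X] (c c' : ℝ → X) : Prop := ∃ B : ℝ, ∀ t, dist (c t) (c' t) ≤ B

/-- synchronised parallel lines -/
def Sy {X : Type u} [MetricSpace X] (c c' : ℝ → X) : Prop :=
  ∀ s t : ℝ, dist (c s) (c' t) ^ 2 = dist (c 0) (c' 0) ^ 2 + (t - s) ^ 2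

/-- the distance of two parallel lines -/
noncomputable def DD {X : Type u} [MetricSpace X] (c c' : ℝ → X) : ℝ :=
  Metric.infDist (c 0) (Set.range c')

/-- the parametrised surface `F` is a flat -/
def Fl {X : Type u} [MetricSpace X] (F : ℝ → ℝ → X) : Prop :=
  ∀ x y x' y', dist (F x y) (F x' y') ^ 2 = (x - x') ^ 2 + (y - y') ^ 2

/-- STRIP : flat strip theorem -/
def C_STRIP : Prop := ∀ (X : Type u) [MetricSpace X], CN X → ∀ c c' : ℝ → X, Isometry c →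
  Isometry c' → Par c c' → ∃ o : ℝ, Sy c (fun t => c' (t + o))

/-- TRANS -/
def C_TRANS : Prop := ∀ (X : Type u) [MetricSpace X], CN X → ∀ a b c : ℝ → X, Isometry a →
  Isometry b → Isometry c → Sy a b → Sy a c → Sy b c

/-- MID -/
def C_MID : Prop := ∀ (X : Type u) [MetricSpace X], CN X → ∀ a b : ℝ → X, Isometry a →
  Isometry b → Sy a b → ∃ m : ℝ → X, Isometry m ∧ Sy a m ∧
    ∀ x : X, dist x (m 0) ^ 2 ≤ (dist x (a 0) ^ 2 + dist x (b 0) ^ 2) / 2 - dist (a 0) (b 0) ^ 2 / 4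

/-- DD : the distance of parallel lines -/
def C_DD : Prop := ∀ (X : Type u) [MetricSpace X], CN X →
  (∀ c c' : ℝ → X, Isometry c → Isometry c' → Par c c' → 0 ≤ DD c c' ∧
    ∃ o : ℝ, ∀ s t : ℝ, dist (c s) (c' t) ^ 2 = DD c c' ^ 2 + (t - s - o) ^ 2) ∧
  (∀ c c' : ℝ → X, Isometry c → Isometry c' → Par c c' → DD c c' = DD c' c) ∧
  (∀ a b c : ℝ → X, Isometry a → Isometry b → Isometry c → Par a b → Par b c →
    DD a c ≤ DD a b + DD b c) ∧
  (∀ a b : ℝ → X, Isometry a → Isometry b → Par a b → ∃ m : ℝ → X, Isometry m ∧ Par a m ∧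
    ∀ x : ℝ → X, Isometry x → Par a x → DD x m ^ 2 ≤ (DD x a ^ 2 + DD x b ^ 2) / 2 -
      DD a b ^ 2 / 4) ∧
  (∀ F : ℝ → ℝ → X, Fl F → ∀ x : ℝ → X, Isometry x → ∀ y : ℝ, Par (fun t => F t y) x →
    DD x (fun t => F t y) ^ 2 ≤
      (DD x (fun t => F t (y - 1)) ^ 2 + DD x (fun t => F t (y + 1)) ^ 2) / 2 - 1)

/-! ## Part 3: closing -/

/-- CEN : almost fixed points -/
def Y_CEN : Prop := ∀ (Y : Type u) (P : Y → Prop) (D : Y → Y → ℝ) (A : Type v) [Group A]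
  [MulAction A Y], (∀ (a : A) (x : Y), P x → P (a • x)) →
  (∀ x y, P x → P y → 0 ≤ D x y) → (∀ x y, P x → P y → D x y = D y x) →
  (∀ x y z, P x → P y → P z → D x z ≤ D x y + D y z) →
  (∀ (a : A) (x y : Y), P x → P y → D (a • x) (a • y) = D x y) →
  (∀ x y, P x → P y → ∃ m, P m ∧
    ∀ z, P z → D z m ^ 2 ≤ (D z x ^ 2 + D z y ^ 2) / 2 - D x y ^ 2 / 4) →
  ∀ (x0 : Y) (R η : ℝ), P x0 → 0 < η → (∀ a : A, D x0 (a • x0) ≤ R) →
  ∃ c, P c ∧ (∀ a : A, D c (a • c) ≤ η) ∧ D c x0 ≤ R + η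

/-- the standing assumptions: geometric action on a CAT(0) space, flat `F`, the powers `g ^ i` act
on `F` coarsely as the translations by `(i τ, 0)` -/
structure Setup (X : Type u) [MetricSpace X] (G : Type v) [Group G] [MulAction G X]
    (F : ℝ → ℝ → X) (g : G) (τ B : ℝ) : Prop where
  proper : ProperSpace X
  isom : IsIsometricSMul G X
  disc : ProperlyDiscontinuousSMul G X
  cc : ∃ K : Set X, IsCompact K ∧ ∀ x : X, ∃ g : G, g • x ∈ K
  cn : CN X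
  flat : Fl F
  pos : 0 < τ
  per : ∀ (i : ℤ) (x y : ℝ), dist (g ^ i • F x y) (F (x + i * τ) y) ≤ B

/-- SEL : elements commuting with `g` which move the flat nearly along itself -/
def X_SEL : Prop := ∀ (X : Type u) [MetricSpace X] (G : Type v) [Group G] [MulAction G X]
  (F : ℝ → ℝ → X) (g : G) (τ B : ℝ), Setup X G F g τ B → ∀ ε : ℝ, 0 < ε →
  ∃ (n m : ℕ) (k : G), n < m ∧ Commute g k ∧ dist (k • F 0 n) (F 0 m) ≤ ε ∧
    dist (k • F 0 ((n : ℝ) - 1)) (F 0 ((m : ℝ) - 1)) ≤ ε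

/-- PARK : elements commuting with `g` preserve parallelism to the first coordinate lines -/
def X_PARK : Prop := ∀ (X : Type u) [MetricSpace X] (G : Type v) [Group G] [MulAction G X]
  (F : ℝ → ℝ → X) (g : G) (τ B : ℝ), Setup X G F g τ B → ∀ k : G, Commute g k →
  ∀ c : ℝ → X, Par (fun t => F t 0) c → Par (fun t => F t 0) (fun t => k • c t)

/-- BND : bounded index -/
def X_BND : Prop := ∀ (X : Type u) [MetricSpace X] (G : Type v) [Group G] [MulAction G X]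
  (F : ℝ → ℝ → X) (g : G) (τ B : ℝ), Setup X G F g τ B → ∃ N0 : ℕ, ∀ k : G, Commute g k →
  ∀ N : ℕ, 0 < N → k ^ N ∈ Subgroup.zpowers g →
  (∀ j : ℕ, 0 < j → j < N → k ^ j ∉ Subgroup.zpowers g) → N ≤ N0

/-- CLOSE : a flat with one period gives `ℤ²` -/
def X_CLOSE : Prop := ∀ (X : Type u) [MetricSpace X] (G : Type v) [Group G] [MulAction G X]
  (F : ℝ → ℝ → X) (g : G) (τ B : ℝ), Setup X G F g τ B →
  ∃ φ : Multiplicative (ℤ × ℤ) →* G, Function.Injective φ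

end Pool.Agent.TH60.FP
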