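import Pool.Agent.TH60.FP.Close

/-!
# Project FP: from the discretised flat to the closing theorem
-/

set_option autoImplicit false

universe u v w

namespace Pool.Agent.TH60.FP

namespace Final

/-- The Euclidean plane. -/
abbrev Plane : Type := EuclideanSpace ℝ (Fin 2)

section alg

variable {G : Type v} [Group G]

lemma Bx_zero (r : ℤ) (w : ℤ × ℤ) : Bx 0 r w ↔ -r ≤ w.1 ∧ w.1 ≤ r ∧ -r ≤ w.2 ∧ w.2 ≤ r := by
  unfold Bx
  simp

lemma pat_le (φ : ℤ × ℤ → G) (q : ℕ) (hq : 0 < q) (n : ℕ∞)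
    (h : (Set.range (fun z : ℤ × ℤ => fun x : {x : ℤ × ℤ // Bx 0 (12 * q) x} =>
      (φ z)⁻¹ * φ (z + x.1))).encard < n) :
    (Set.range (fun z : ℤ × ℤ => fun x : {x : ℤ × ℤ // Bx 0 (11 * q) x} =>
      (fun w : ℤ × ℤ => ((φ w)⁻¹ * φ (w + (1, 0)), (φ w)⁻¹ * φ (w + (0, 1)))) (z + x.1))).encard
      < n := by
  have hq' : (1 : ℤ) ≤ q := by exact_mod_cast hq
  have e0 : ∀ x : {x : ℤ × ℤ // Bx 0 (11 * q) x}, Bx 0 (12 * q) x.1 := by
    rintro ⟨x, hx⟩
    rw [Bx_zero] at hx ⊢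
    obtain ⟨h1, h2, h3, h4⟩ := hx
    simp only
    refine ⟨?_, ?_, ?_, ?_⟩ <;> omega
  have e1 : ∀ x : {x : ℤ × ℤ // Bx 0 (11 * q) x}, Bx 0 (12 * q) (x.1 + (1, 0)) := by
    rintro ⟨x, hx⟩
    rw [Bx_zero] at hx ⊢
    obtain ⟨h1, h2, h3, h4⟩ := hx
    simp only [Prod.fst_add, Prod.snd_add]
    refine ⟨?_, ?_, ?_, ?_⟩ <;> omega
  have e2 : ∀ x : {x : ℤ × ℤ // Bx 0 (11 * q) x}, Bx 0 (12 * q) (x.1 + (0, 1)) := by
    rintro ⟨x, hx⟩
    rw [Bx_zero] at hx ⊢
    obtain ⟨h1, h2, h3, h4⟩ := hx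
    simp only [Prod.fst_add, Prod.snd_add]
    refine ⟨?_, ?_, ?_, ?_⟩ <;> omega
  let Θ : ({x : ℤ × ℤ // Bx 0 (12 * q) x} → G) → ({x : ℤ × ℤ // Bx 0 (11 * q) x} → G × G) :=
    fun P x => ((P ⟨_, e0 x⟩)⁻¹ * P ⟨_, e1 x⟩, (P ⟨_, e0 x⟩)⁻¹ * P ⟨_, e2 x⟩)
  have h1 : Set.range (fun z : ℤ × ℤ => fun x : {x : ℤ × ℤ // Bx 0 (11 * q) x} =>
      (fun w : ℤ × ℤ => ((φ w)⁻¹ * φ (w + (1, 0)), (φ w)⁻¹ * φ (w + (0, 1)))) (z + x.1)) =
      Θ '' Set.range (fun z : ℤ × ℤ => fun x : {x : ℤ × ℤ // Bx 0 (12 * q) x} =>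
        (φ z)⁻¹ * φ (z + x.1)) := by
    rw [← Set.range_comp]
    congr 1
    funext z x
    simp only [Θ, Function.comp_apply]
    rw [← add_assoc, ← add_assoc]
    ext <;> simp only <;> group
  rw [h1]
  exact (Set.encard_image_le _ _).trans_lt h

lemma const_h (φ : ℤ × ℤ → G) (v : ℤ × ℤ)
    (h : ∀ w : ℤ × ℤ, (fun w : ℤ × ℤ => ((φ w)⁻¹ * φ (w + (1, 0)), (φ w)⁻¹ * φ (w + (0, 1)))) w =
      (fun w : ℤ × ℤ => ((φ w)⁻¹ * φ (w + (1, 0)), (φ w)⁻¹ * φ (w + (0, 1)))) (w + v)) :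
    ∀ w, φ (w + v) = (φ v * (φ 0)⁻¹) * φ w := by
  set H : ℤ × ℤ → G := fun w => φ (w + v) * (φ w)⁻¹ with hH
  have h1 : ∀ w, H (w + (1, 0)) = H w := by
    intro w
    have := congrArg Prod.fst (h w)
    simp only at this
    simp only [hH]
    rw [show w + (1, 0) + v = w + v + (1, 0) by abel]
    have e1 : φ (w + v + (1, 0)) = φ (w + v) * ((φ w)⁻¹ * φ (w + (1, 0))) := by
      rw [this]; group
    rw [e1]
    group
  have h2 : ∀ w, H (w + (0, 1)) = H w := by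
    intro w
    have := congrArg Prod.snd (h w)
    simp only at this
    simp only [hH]
    rw [show w + (0, 1) + v = w + v + (0, 1) by abel]
    have e1 : φ (w + v + (0, 1)) = φ (w + v) * ((φ w)⁻¹ * φ (w + (0, 1))) := by
      rw [this]; group
    rw [e1]
    group
  have h3 : ∀ (x y : ℤ), H (x, y) = H (0, y) := by
    intro x y
    induction x using Int.induction_on with
    | zero => rfl
    | succ i ih =>
      rw [← ih, ← h1 ((i : ℤ), y)]
      simp
    | pred i ih =>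
      rw [← ih, ← h1 (-(i : ℤ) - 1, y)]
      simp
  have h4 : ∀ y : ℤ, H (0, y) = H (0, 0) := by
    intro y
    induction y using Int.induction_on with
    | zero => rfl
    | succ i ih =>
      rw [← ih, ← h2 (0, (i : ℤ))]
      simp
    | pred i ih =>
      rw [← ih, ← h2 (0, -(i : ℤ) - 1)]
      simp
  intro w
  have h5 : H w = H 0 := by
    obtain ⟨x, y⟩ := w
    rw [h3, h4]
    rfl
  simp only [hH, zero_add] at h5
  rw [← h5]
  group

lemma zpow_h (φ : ℤ × ℤ → G) (v : ℤ × ℤ) (g : G) (h : ∀ w, φ (w + v) = g * φ w) (i : ℤ) :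
    ∀ w, φ (w + i • v) = g ^ i * φ w := by
  induction i using Int.induction_on with
  | zero => intro w; simp
  | succ i ih =>
    intro w
    rw [add_smul, one_smul, ← add_assoc, h, ih, ← mul_assoc, ← zpow_one_add, add_comm (1 : ℤ)]
  | pred i ih =>
    intro w
    have h1 := h (w + (-(i : ℤ) - 1) • v)
    rw [show w + (-(i : ℤ) - 1) • v + v = w + (-(i : ℤ)) • v by rw [sub_smul, one_smul]; abel,
      ih] at h1
    have h2 : g ^ (-(i : ℤ) - 1) = g⁻¹ * g ^ (-(i : ℤ)) := by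
      rw [zpow_sub_one]
      exact ((Commute.refl g).inv_right.zpow_left _).eq
    rw [h2, mul_assoc, h1]
    group

end alg

variable {X : Type u} [MetricSpace X] {G : Type v} [Group G] [MulAction G X]

theorem main (hPER : N_PER.{v}) (hCLOSE : X_CLOSE.{u, v}) [ProperSpace X] (hCN : CN X)
    [IsIsometricSMul G X] [ProperlyDiscontinuousSMul G X]
    (hcc : ∃ K : Set X, IsCompact K ∧ ∀ x : X, ∃ g : G, g • x ∈ K)
    (f : Plane → X) (hf : Isometry f) (b₁ b₂ : Plane) (hb : LinearIndependent ℝ ![b₁, b₂])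
    (x₀ : X) (r : ℝ) (φ : ℤ × ℤ → G)
    (hφ : ∀ z : ℤ × ℤ, dist (φ z • x₀) (f (z.1 • b₁ + z.2 • b₂)) ≤ r) (q : ℕ) (hq : 0 < q)
    (hP : (Set.range (fun z : ℤ × ℤ => fun x : {x : ℤ × ℤ // Bx 0 (12 * q) x} =>
      (φ z)⁻¹ * φ (z + x.1))).encard < ((q + 1) ^ 2 : ℕ)) :
    ∃ ψ : Multiplicative (ℤ × ℤ) →* G, Function.Injective ψ := by
  obtain ⟨v, hv0, hv⟩ := hPER (G × G) (fun w : ℤ × ℤ =>
    ((φ w)⁻¹ * φ (w + (1, 0)), (φ w)⁻¹ * φ (w + (0, 1)))) q hq (pat_le φ q hq _ hP)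
  set g : G := φ v * (φ 0)⁻¹ with hg
  have h1 := zpow_h φ v g (const_h φ v hv)
  -- the vector
  set L : ℤ × ℤ → Plane := fun z => z.1 • b₁ + z.2 • b₂ with hL
  have hLadd : ∀ z z', L (z + z') = L z + L z' := by
    intro z z'
    simp only [hL, Prod.fst_add, Prod.snd_add, add_smul]
    abel
  have hLsmul : ∀ (i : ℤ) z, L (i • z) = i • L z := by
    intro i z
    simp only [hL, Prod.smul_fst, Prod.smul_snd, smul_add, smul_assoc]
  set V : Plane := L v with hV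
  have hli := LinearIndependent.pair_iff.1 hb
  have hV0 : V ≠ 0 := by
    intro h
    apply hv0
    have h2 := hli (v.1 : ℝ) (v.2 : ℝ) (by
      rw [Int.cast_smul_eq_zsmul, Int.cast_smul_eq_zsmul]
      exact h)
    apply Prod.ext
    · exact_mod_cast h2.1
    · exact_mod_cast h2.2
  set τ : ℝ := ‖V‖ with hτ
  have hτ0 : 0 < τ := norm_pos_iff.2 hV0
  set U : Plane := τ⁻¹ • V with hU
  have hU1 : ‖U‖ = 1 := by
    rw [hU, norm_smul, norm_inv, norm_norm, ← hτ, inv_mul_cancel₀ hτ0.ne']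
  have hUV : τ • U = V := by rw [hU, smul_smul, mul_inv_cancel₀ hτ0.ne', one_smul]
  have hU2 : U 0 ^ 2 + U 1 ^ 2 = 1 := by
    have := EuclideanSpace.norm_sq_eq U
    rw [hU1, Fin.sum_univ_two, Real.norm_eq_abs, Real.norm_eq_abs, sq_abs, sq_abs] at this
    linarith
  set W : Plane := !₂[-U 1, U 0] with hW
  have hnorm : ∀ a b : ℝ, ‖a • U + b • W‖ ^ 2 = a ^ 2 + b ^ 2 := by
    intro a b
    rw [EuclideanSpace.norm_sq_eq, Fin.sum_univ_two, Real.norm_eq_abs, Real.norm_eq_abs, sq_abs,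
      sq_abs]
    simp only [PiLp.add_apply, PiLp.smul_apply, smul_eq_mul, hW]
    simp
    linear_combination (a ^ 2 + b ^ 2) * hU2
  set F : ℝ → ℝ → X := fun x y => f (x • U + y • W) with hF
  have hFl : Fl F := by
    intro x y x' y'
    rw [hF]
    simp only
    rw [hf.dist_eq, dist_eq_norm, ← hnorm]
    congr 2
    module
  -- approximation by lattice points
  set C : ℝ := ‖b₁‖ + ‖b₂‖ with hC
  have happ : ∀ p : Plane, ∃ z : ℤ × ℤ, dist p (L z) ≤ C := by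
    intro p
    have hspan : ∃ α β : ℝ, p = α • b₁ + β • b₂ := by
      have hc : Fintype.card (Fin 2) = Module.finrank ℝ Plane := by simp [Plane]
      set bas := basisOfLinearIndependentOfCardEqFinrank hb hc with hbas
      refine ⟨bas.repr p 0, bas.repr p 1, ?_⟩
      have h2 := bas.sum_repr p
      rw [Fin.sum_univ_two] at h2
      have h3 : ∀ i, bas i = ![b₁, b₂] i := fun i => by
        rw [hbas, coe_basisOfLinearIndependentOfCardEqFinrank]
      rw [h3, h3] at h2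
      exact h2.symm
    obtain ⟨α, β, hp⟩ := hspan
    refine ⟨(⌊α⌋, ⌊β⌋), ?_⟩
    have h2 : p - L (⌊α⌋, ⌊β⌋) = Int.fract α • b₁ + Int.fract β • b₂ := by
      rw [hp, hL]
      simp only
      rw [← Int.cast_smul_eq_zsmul ℝ, ← Int.cast_smul_eq_zsmul ℝ]
      unfold Int.fract
      module
    rw [dist_eq_norm, h2]
    refine (norm_add_le _ _).trans ?_
    rw [norm_smul, norm_smul, Real.norm_eq_abs, Real.norm_eq_abs, abs_of_nonneg (Int.fract_nonneg _),
      abs_of_nonneg (Int.fract_nonneg _)]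
    have h3 := (Int.fract_lt_one α).le
    have h4 := (Int.fract_lt_one β).le
    have h5 := norm_nonneg b₁
    have h6 := norm_nonneg b₂
    rw [hC]
    exact add_le_add (mul_le_of_le_one_left h5 h3) (mul_le_of_le_one_left h6 h4)
  have hper : ∀ (i : ℤ) (x y : ℝ), dist (g ^ i • F x y) (F (x + i * τ) y) ≤ C + r + (r + C) := by
    intro i x y
    set p : Plane := x • U + y • W with hp
    have hp2 : (x + i * τ) • U + y • W = p + i • V := by
      rw [hp, ← hUV, ← Int.cast_smul_eq_zsmul ℝ]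
      module
    have e1 : F (x + i * τ) y = f (p + i • V) := by rw [hF]; simp only; rw [hp2]
    rw [e1]
    show dist (g ^ i • f p) (f (p + i • V)) ≤ _
    obtain ⟨z, hz⟩ := happ p
    have a1 : dist (g ^ i • f p) (g ^ i • f (L z)) ≤ C := by
      rw [dist_smul, hf.dist_eq]; exact hz
    have a2 : dist (g ^ i • f (L z)) (g ^ i • φ z • x₀) ≤ r := by
      rw [dist_smul, dist_comm]; exact hφ z
    have a3 : dist (g ^ i • φ z • x₀) (f (L z + i • V)) ≤ r := by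
      rw [← mul_smul, ← h1 i z, hV, ← hLsmul, ← hLadd]
      exact hφ _
    have a4 : dist (f (L z + i • V)) (f (p + i • V)) ≤ C := by
      rw [hf.dist_eq, dist_add_right, dist_comm]; exact hz
    have b1 := dist_triangle (g ^ i • f p) (g ^ i • f (L z)) (g ^ i • φ z • x₀)
    have b2 := dist_triangle (g ^ i • φ z • x₀) (f (L z + i • V)) (f (p + i • V))
    have b3 := dist_triangle (g ^ i • f p) (g ^ i • φ z • x₀) (f (p + i • V))
    linarith
  exact hCLOSE X G F g τ (C + r + (r + C)) ⟨inferInstance, inferInstance, inferInstance, hcc, hCN,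
    hFl, hτ0, hper⟩

end Final

end Pool.Agent.TH60.FP
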